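import Pool.Agent.Helper85.REC.Stmts14
import Pool.Agent.Helper81.AbMot.Inrt

/-!
# REC, TSR: surjectivity of the fundamental character of level `r`
-/

set_option autoImplicit false

open scoped Classical Pointwise
open NumberField

namespace REC

open MU

/-- roots of unity of order prime to the residue characteristic are determined modulo a prime -/
theorem tsr_inj {A : Type} [CommRing A] [IsDomain A] (Q : Ideal A) (N : ℕ) (hN : (N : A) ∉ Q)
    (u : A) (h : u ^ N = 1) (h1 : u - 1 ∈ Q) : u = 1 := by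
  by_contra hne
  have h2 : (∑ j ∈ Finset.range N, u ^ j) * (u - 1) = 0 := by
    rw [geom_sum_mul, h, sub_self]
  rcases mul_eq_zero.1 h2 with h3 | h3
  · apply hN
    have h4 : ((∑ j ∈ Finset.range N, u ^ j) - (N : A)) ∈ Q := by
      have h5 : (N : A) = ∑ j ∈ Finset.range N, (1 : A) := by simp
      rw [h5, ← Finset.sum_sub_distrib]
      apply Q.sum_mem
      intro j _
      obtain ⟨c, hc⟩ := sub_one_dvd_pow_sub_one u j
      rw [hc]
      exact Q.mul_mem_right c h1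
    rw [h3, zero_sub] at h4
    exact neg_mem_iff.1 h4
  · exact hne (sub_eq_zero.1 h3)

section

variable {F : Type} [Field F] [NumberField F]

omit [NumberField F] in
/-- inertia elements at `Q` fix the roots of unity of order `N`, `N ∉ Q` -/
theorem tsr_fix {E : Type} [Field E] [NumberField E] [Algebra F E] (Q : Ideal (𝓞 E)) (N : ℕ)
    (hN0 : 0 < N) (hN : (N : 𝓞 E) ∉ Q) (σ : E ≃ₐ[F] E) (hσ : ∀ x : 𝓞 E, σ • x - x ∈ Q) (w : E)
    (hw : w ^ N = 1) : σ w = w := by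
  have hw0 : w ≠ 0 := by
    rintro rfl
    rw [zero_pow hN0.ne'] at hw
    exact zero_ne_one hw
  have hint : ∀ v : E, v ^ N = 1 → IsIntegral ℤ v := fun v hv =>
    IsIntegral.of_pow hN0 (by rw [hv]; exact isIntegral_one)
  have hinv : (w⁻¹) ^ N = 1 := by rw [inv_pow, hw, inv_one]
  let a : 𝓞 E := ⟨w, hint w hw⟩
  let b : 𝓞 E := ⟨w⁻¹, hint _ hinv⟩
  have hab : a * b = 1 := RingOfIntegers.ext (mul_inv_cancel₀ hw0)
  have h1 : (σ • a) * b - 1 ∈ Q := by
    have h2 : (σ • a) * b - 1 = (σ • a - a) * b := by rw [sub_mul, hab]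
    rw [h2]
    exact Q.mul_mem_right _ (hσ a)
  have h2 : ((σ • a) * b) ^ N = 1 := by
    apply RingOfIntegers.ext
    change (σ w * w⁻¹) ^ N = 1
    rw [mul_pow, ← map_pow, hw, map_one, hinv, one_mul]
  have h3 := tsr_inj Q N hN _ h2 h1
  have h4 : σ w * w⁻¹ = 1 := congrArg (fun z : 𝓞 E => (z : E)) h3
  field_simp at h4
  exact h4

/-- the ramification index is divisible by `N` -/
theorem tsr_ram {E : Type} [Field E] [NumberField E] (Q : Ideal (𝓞 E)) [Q.IsPrime] (l : ℕ)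
    (hl : l.Prime) (hlQ : (l : 𝓞 E) ∈ Q) (N : ℕ) (y : 𝓞 E) (hy : y ^ N = l) :
    N ∣ Q.ramificationIdx ℤ := by
  have hmp : Prime (l : ℤ) := Nat.prime_iff_prime_int.1 hl
  have hlo : Q.LiesOver (Ideal.span {(l : ℤ)}) := by
    refine (Ideal.liesOver_span_iff (Ideal.IsPrime.ne_top inferInstance) hmp).2 ?_
    exact_mod_cast hlQ
  have hmap : Ideal.map (algebraMap ℤ (𝓞 E)) (Ideal.span {(l : ℤ)}) = Ideal.span {y} ^ N := by
    rw [Ideal.map_span, Set.image_singleton, Ideal.span_singleton_pow, hy]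
    congr 2
    exact_mod_cast rfl
  have hy0 : y ≠ 0 ∨ N = 0 := by
    by_contra hcon
    push Not at hcon
    obtain ⟨h1, h2⟩ := hcon
    rw [h1, zero_pow h2] at hy
    exact hl.ne_zero (by exact_mod_cast hy.symm)
  have hne : Ideal.map (algebraMap ℤ (𝓞 E)) (Ideal.span {(l : ℤ)}) ≠ ⊥ := by
    rw [hmap]
    rcases hy0 with h | h
    · apply pow_ne_zero
      rw [Ne, Ideal.zero_eq_bot, Ideal.span_singleton_eq_bot]
      exact h
    · rw [h, pow_zero, Ideal.one_eq_top]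
      exact top_ne_bot
  rw [Ideal.IsDedekindDomain.ramificationIdx_eq_normalizedFactors_count
    (Ideal.span {(l : ℤ)}) Q hne, hmap, UniqueFactorizationMonoid.normalizedFactors_pow,
    Multiset.count_nsmul]
  exact dvd_mul_right _ _

/-- a generator of tame inertia acting on a root of order `N` of `l`, in a finite extension -/
theorem tsr_fin (l : ℕ) (hl : l.Prime) (hD : ¬ (l : ℤ) ∣ discr F) {E : Type} [Field E]
    [NumberField E] [Algebra F E] [IsGalois F E] (Q : Ideal (𝓞 E)) [Q.IsPrime]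
    (hlQ : (l : 𝓞 E) ∈ Q) (N : ℕ) (hN0 : 0 < N) (hN : (N : 𝓞 E) ∉ Q) (y : E) (hy : y ^ N = l)
    (hgen : ∀ σ τ : E ≃ₐ[F] E, (∀ x : E, x ^ N = l → σ x = τ x) → σ = τ) (ζ : E)
    (hζ : ζ ^ N = 1) : ∃ σ : E ≃ₐ[F] E, (∀ x : 𝓞 E, σ • x - x ∈ Q) ∧ σ y = ζ * y := by
  have hmp : Prime (l : ℤ) := Nat.prime_iff_prime_int.1 hl
  have hNz : NeZero N := ⟨hN0.ne'⟩
  have hG : IsGaloisGroup (E ≃ₐ[F] E) (𝓞 F) (𝓞 E) :=
    IsGaloisGroup.of_isFractionRing (E ≃ₐ[F] E) (𝓞 F) (𝓞 E) F E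
  have hmF : (l : 𝓞 F) ∈ Q.under (𝓞 F) := by
    rw [Ideal.under_def, Ideal.mem_comap, map_natCast]
    exact hlQ
  have hun : Algebra.IsUnramifiedAt ℤ (Q.under (𝓞 F)) :=
    (NumberField.not_dvd_discr_iff_forall_mem F (𝓞 F) hmp).1 hD _ inferInstance
      (by exact_mod_cast hmF)
  have he1 : (Q.under (𝓞 F)).ramificationIdx ℤ = 1 := Ideal.ramificationIdx_eq_one _ _
  have he3 := Ideal.ramificationIdx_tower (R := ℤ) (Q.under (𝓞 F)) Q
  have he5 : Nat.card (Q.inertia (E ≃ₐ[F] E)) = Q.ramificationIdx (𝓞 F) := by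
    have hQm : Q.IsMaximal := by
      apply Ideal.IsPrime.isMaximal inferInstance
      rintro rfl
      rw [Ideal.mem_bot] at hlQ
      exact hl.ne_zero (by exact_mod_cast hlQ)
    rw [← Ideal.ramificationIdxIn_eq_ramificationIdx (Q.under (𝓞 F)) Q (E ≃ₐ[F] E),
      ← Ideal.card_inertia_eq_ramificationIdxIn (G := (E ≃ₐ[F] E)) (Q.under (𝓞 F)) Q]
  have hl0 : (l : E) ≠ 0 := Nat.cast_ne_zero.2 hl.ne_zero
  have hy0 : y ≠ 0 := by
    rintro rfl
    rw [zero_pow hN0.ne'] at hy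
    exact hl0 hy.symm
  have hyint : IsIntegral ℤ y := IsIntegral.of_pow hN0 (by rw [hy]; exact isIntegral_natCast l)
  have hcard : N ≤ Nat.card (Q.inertia (E ≃ₐ[F] E)) := by
    refine Nat.le_of_dvd Nat.card_pos ?_
    rw [he1, one_mul] at he3
    rw [he5, ← he3]
    refine tsr_ram Q l hl hlQ N ⟨y, hyint⟩ (RingOfIntegers.ext ?_)
    change y ^ N = ((l : 𝓞 E) : E)
    rw [hy]
    exact (map_natCast (algebraMap (𝓞 E) E) l).symm
  let f : Q.inertia (E ≃ₐ[F] E) → rootsOfUnity N E := fun σ =>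
    rootsOfUnity.mkOfPowEq (σ.1 y / y) (by
      rw [div_pow, ← map_pow, hy, map_natCast, div_self hl0])
  have hfv : ∀ σ : Q.inertia (E ≃ₐ[F] E), (((f σ : Eˣ)) : E) = σ.1 y / y := fun σ => rfl
  have hf : Function.Injective f := by
    intro σ τ h
    apply Subtype.ext
    apply hgen
    intro x hx
    have h1 : (σ.1 y) / y = (τ.1 y) / y := by rw [← hfv, ← hfv, h]
    have h2 : σ.1 y = τ.1 y := by
      field_simp at h1
      exact h1
    have hw : (x / y) ^ N = 1 := by rw [div_pow, hx, hy, div_self hl0]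
    have h3 := tsr_fix Q N hN0 hN σ.1 (fun x => σ.2 x) _ hw
    have h4 := tsr_fix Q N hN0 hN τ.1 (fun x => τ.2 x) _ hw
    have h5 : x = (x / y) * y := by field_simp
    rw [h5, map_mul, map_mul, h2, h3, h4]
  have hbij : Function.Bijective f := by
    refine (Nat.bijective_iff_injective_and_card f).2 ⟨hf, ?_⟩
    have h1 := Nat.card_le_card_of_injective f hf
    have h2 : Nat.card (rootsOfUnity N E) ≤ N := card_rootsOfUnity E N
    omega
  obtain ⟨σ, hσ⟩ := hbij.2 (rootsOfUnity.mkOfPowEq ζ hζ)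
  refine ⟨σ.1, fun x => σ.2 x, ?_⟩
  have h1 : (((f σ : Eˣ)) : E) = ζ := by rw [hσ]; rfl
  rw [hfv, div_eq_iff hy0] at h1
  exact h1

omit [NumberField F] in
/-- conjugation to a given prime -/
theorem tsr_conj {E Ω : Type} [Field E] [NumberField E] [Field Ω] [Algebra E Ω] [Algebra F E]
    [Algebra F Ω] [IsScalarTower F E Ω] [IsGalois E Ω] (P P₀ : Ideal (𝓞 Ω)) [P.IsPrime]
    [P₀.IsPrime] (h : P.under (𝓞 E) = P₀.under (𝓞 E)) (τ : Ω ≃ₐ[F] Ω)
    (hτ : ∀ x : 𝓞 Ω, τ • x - x ∈ P) :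
    ∃ g : Ω ≃ₐ[E] Ω, ∀ x : 𝓞 Ω, (g.restrictScalars F * τ * (g⁻¹).restrictScalars F) • x - x
      ∈ P₀ := by
  have := AbMot.wc_isInvariant (K := E) (Ω := Ω)
  have := AbMot.wc_comm (K := E) (Ω := Ω)
  let : TopologicalSpace (𝓞 Ω) := ⊥
  have : DiscreteTopology (𝓞 Ω) := ⟨rfl⟩
  have : ContinuousSMul (Ω ≃ₐ[E] Ω) (𝓞 Ω) := by
    rw [continuousSMul_iff_stabilizer_isOpen]
    intro x
    have h := stabilizer_isOpen_of_isIntegral (K := E) (L := Ω) (x : Ω)
    have e : (MulAction.stabilizer (Ω ≃ₐ[E] Ω) x : Set (Ω ≃ₐ[E] Ω))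
        = (MulAction.stabilizer (Ω ≃ₐ[E] Ω) (x : Ω) : Set (Ω ≃ₐ[E] Ω)) := by
      ext g
      constructor
      · intro hg
        exact congrArg (fun z : 𝓞 Ω => (z : Ω)) hg
      · intro hg
        exact RingOfIntegers.ext hg
    rw [e]
    exact h
  obtain ⟨g, hg⟩ := Algebra.IsInvariant.exists_smul_of_under_eq_of_profinite
    (A := 𝓞 E) (B := 𝓞 Ω) (G := (Ω ≃ₐ[E] Ω)) P P₀ h
  refine ⟨g, fun x => ?_⟩
  have h1 : (g.restrictScalars F * τ * (g⁻¹).restrictScalars F) • x - x =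
      g • (τ • (g⁻¹ • x) - g⁻¹ • x) := by
    rw [smul_sub, smul_inv_smul]
    congr 1
  rw [h1, hg]
  exact (Ideal.smul_mem_pointwise_smul_iff).2 (hτ _)

/-- tame inertia acts on the roots of order `N` of `l` through all roots of unity of order `N` -/
theorem tsr_main (l : ℕ) (hl : l.Prime) (hD : ¬ (l : ℤ) ∣ discr F)
    (P₀ : Ideal (𝓞 (AlgebraicClosure F))) [P₀.IsPrime] (hlP : (l : 𝓞 (AlgebraicClosure F)) ∈ P₀)
    (N : ℕ) (hN0 : 0 < N) (hN : (N : 𝓞 (AlgebraicClosure F)) ∉ P₀) :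
    ∃ (σ : Gal F) (y ζ : AlgebraicClosure F), (∀ x : 𝓞 (AlgebraicClosure F), σ • x - x ∈ P₀) ∧
      y ^ N = l ∧ IsPrimitiveRoot ζ N ∧ σ y = ζ * y := by
  have hNz : NeZero N := ⟨hN0.ne'⟩
  have hNz' : NeZero (N : AlgebraicClosure F) := ⟨Nat.cast_ne_zero.2 hN0.ne'⟩
  obtain ⟨y, hy⟩ := IsAlgClosed.exists_pow_nat_eq (l : AlgebraicClosure F) hN0
  obtain ⟨ζ, hζ⟩ := HasEnoughRootsOfUnity.exists_primitiveRoot (AlgebraicClosure F) N
  let p : Polynomial F := Polynomial.X ^ N - Polynomial.C (l : F)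
  have hp0 : p ≠ 0 := Polynomial.X_pow_sub_C_ne_zero hN0 _
  let E : IntermediateField F (AlgebraicClosure F) :=
    IntermediateField.adjoin F (p.rootSet (AlgebraicClosure F))
  have hroot : ∀ x : AlgebraicClosure F, x ∈ p.rootSet (AlgebraicClosure F) ↔ x ^ N = l := by
    intro x
    rw [Polynomial.mem_rootSet_of_ne hp0]
    simp only [p, map_sub, map_pow, Polynomial.aeval_X, map_natCast, sub_eq_zero]
  have hsp : p.IsSplittingField F E :=
    IntermediateField.adjoin_rootSet_isSplittingField (IsAlgClosed.splits _)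
  have hfd : FiniteDimensional F E := Polynomial.IsSplittingField.finiteDimensional E p
  have hnorm : Normal F E := Normal.of_isSplittingField p
  have hgal : IsGalois F E := ⟨⟩
  have hNF : NumberField E := NumberField.of_module_finite F E
  have hgal2 : IsGalois E (AlgebraicClosure F) := IsGalois.tower_top_intermediateField E
  have hl0 : (l : AlgebraicClosure F) ≠ 0 := Nat.cast_ne_zero.2 hl.ne_zero
  have hy0 : y ≠ 0 := by
    rintro rfl
    rw [zero_pow hN0.ne'] at hy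
    exact hl0 hy.symm
  have hyE : y ∈ E := IntermediateField.subset_adjoin F _ ((hroot y).2 hy)
  have hζyE : ζ * y ∈ E := IntermediateField.subset_adjoin F _ ((hroot _).2 (by
    rw [mul_pow, hζ.pow_eq_one, one_mul, hy]))
  have hζE : ζ ∈ E := by
    have h1 : ζ = ζ * y / y := by field_simp
    rw [h1]
    exact E.div_mem hζyE hyE
  let Q : Ideal (𝓞 E) := P₀.under (𝓞 E)
  have hQ : Q.IsPrime := inferInstance
  have hlQ : (l : 𝓞 E) ∈ Q := by
    change (l : 𝓞 E) ∈ P₀.under (𝓞 E)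
    rw [Ideal.under_def, Ideal.mem_comap, map_natCast]
    exact hlP
  have hNQ : (N : 𝓞 E) ∉ Q := by
    change (N : 𝓞 E) ∉ P₀.under (𝓞 E)
    rw [Ideal.under_def, Ideal.mem_comap, map_natCast]
    exact hN
  have hgen : ∀ σ τ : E ≃ₐ[F] E, (∀ x : E, x ^ N = l → σ x = τ x) → σ = τ := by
    intro σ τ h
    have h1 : (σ : E →ₐ[F] E) = (τ : E →ₐ[F] E) := by
      apply IntermediateField.algHom_ext_of_eq_adjoin (F := F) (S := E) rfl
      intro x hx
      apply h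
      apply Subtype.ext
      have h2 := (hroot x).1 hx
      change x ^ N = ((l : E) : AlgebraicClosure F)
      rw [h2]
      exact (map_natCast (algebraMap E (AlgebraicClosure F)) l).symm
    ext x
    exact congrArg Subtype.val (DFunLike.congr_fun h1 x)
  obtain ⟨σ, hσ, hσy⟩ := tsr_fin l hl hD Q hlQ N hN0 hNQ ⟨y, hyE⟩ (by
    apply Subtype.ext
    change y ^ N = ((l : E) : AlgebraicClosure F)
    rw [hy]
    exact (map_natCast (algebraMap E (AlgebraicClosure F)) l).symm) hgen ⟨ζ, hζE⟩ (by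
    apply Subtype.ext
    exact hζ.pow_eq_one)
  have hQm : Q.IsMaximal := by
    apply Ideal.IsPrime.isMaximal inferInstance
    intro h0
    rw [h0, Ideal.mem_bot] at hlQ
    exact hl.ne_zero (by exact_mod_cast hlQ)
  obtain ⟨τ, P, hP, hPQ, hτ, hτP⟩ := AbMot.in_lift (F := F) (K := E) (Ω := AlgebraicClosure F) Q σ hσ
  obtain ⟨g, hg⟩ := tsr_conj (F := F) (E := E) P P₀ hPQ τ hτP
  refine ⟨g.restrictScalars F * τ * (g⁻¹).restrictScalars F, y, ζ, hg, hy, hζ, ?_⟩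
  have h1 : ∀ x : E, (g⁻¹) (x : AlgebraicClosure F) = x := fun x => (g⁻¹).commutes x
  have h2 : ∀ x : E, g (x : AlgebraicClosure F) = x := fun x => g.commutes x
  change g (τ ((g⁻¹) y)) = ζ * y
  have h3 := h1 ⟨y, hyE⟩
  change g⁻¹ y = y at h3
  rw [h3]
  have h4 := hτ ⟨y, hyE⟩
  rw [hσy] at h4
  change τ y = ζ * y at h4
  rw [h4]
  exact h2 ⟨ζ * y, E.mul_mem hζE hyE⟩

end

theorem st_TSR : ST_TSR := by
  intro F _ _
  refine ⟨(discr F).natAbs, fun l _ hl k _ θ hθ r hr => ?_⟩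
  have hlp : l.Prime := Fact.out
  have hD : ¬ (l : ℤ) ∣ discr F := by
    intro h
    have h1 := Nat.le_of_dvd (Int.natAbs_pos.2 (discr_ne_zero F)) (Int.natCast_dvd.1 h)
    omega
  have hN0 : 0 < l ^ r - 1 := by
    have := Nat.one_lt_pow hr.ne' hlp.one_lt
    omega
  have hNθ : θ ((l ^ r - 1 : ℕ) : Zb F) = -1 := by
    rw [Nat.cast_sub (Nat.one_le_pow _ _ hlp.pos), Nat.cast_pow, Nat.cast_one, map_sub, map_pow,
      hθ, zero_pow hr.ne', map_one, zero_sub]
  let P₀ : Ideal (𝓞 (AlgebraicClosure F)) := RingHom.ker θ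
  have hP₀ : P₀.IsPrime := RingHom.ker_isPrime θ
  have hN : ((l ^ r - 1 : ℕ) : 𝓞 (AlgebraicClosure F)) ∉ P₀ := by
    intro h
    have h1 : θ ((l ^ r - 1 : ℕ) : Zb F) = 0 := h
    rw [hNθ] at h1
    exact one_ne_zero (neg_eq_zero.1 h1)
  obtain ⟨σ, y, ζ, hσ, hy, hζ, hσy⟩ := tsr_main (F := F) l hlp hD P₀ hθ _ hN0 hN
  have hyint : IsIntegral ℤ y := IsIntegral.of_pow hN0 (by rw [hy]; exact isIntegral_natCast l)
  have hζint : IsIntegral ℤ ζ := IsIntegral.of_pow hN0 (by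
    rw [hζ.pow_eq_one]; exact isIntegral_one)
  have hz : IsPrimitiveRoot (⟨ζ, hζint⟩ : Zb F) (l ^ r - 1) :=
    IsPrimitiveRoot.of_map_of_injective (f := algebraMap (Zb F) (AlgebraicClosure F)) hζ
      Subtype.val_injective
  refine ⟨σ, ⟨y, hyint⟩, ⟨ζ, hζint⟩, ?_, ?_, hσy.symm, ?_⟩
  · intro x x' hx
    have h1 : x' = (σ • (show 𝓞 (AlgebraicClosure F) from x) : 𝓞 (AlgebraicClosure F)) :=
      RingOfIntegers.ext hx
    rw [pow_one, h1]
    exact hσ x
  · apply Subtype.ext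
    change y ^ (l ^ r - 1) = _
    rw [hy]
    rfl
  · have h1 : IsPrimitiveRoot (θ ⟨ζ, hζint⟩) (l ^ r - 1) := by
      constructor
      · rw [← map_pow, hz.pow_eq_one, map_one]
      · intro j hj
        apply hz.dvd_of_pow_eq_one
        apply tsr_inj (RingHom.ker θ) (l ^ r - 1) hN
        · rw [← pow_mul, mul_comm, pow_mul, hz.pow_eq_one, one_pow]
        · rw [RingHom.mem_ker, map_sub, map_pow, hj, map_one, sub_self]
    exact h1.eq_orderOf.symm

end REC
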