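import Pool.Agent.Helper85.REC.Stmts11

/-!
# REC, HKL: the number of eigenvalues is the rank of a Hankel matrix
-/

set_option autoImplicit false

open scoped Classical Matrix
open NumberField Polynomial

namespace REC

open MU

section

variable {L : Type} [Field L] [IsAlgClosed L] [CharZero L] {r : ℕ}

omit [CharZero L] in
lemma hkl_card (A : Matrix (Fin r) (Fin r) L) : A.charpoly.roots.card = r := by
  rw [← (IsAlgClosed.splits A.charpoly).natDegree_eq_card_roots, Matrix.charpoly_natDegree_eq_dim]
  simp

omit [CharZero L] in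
lemma hkl_det (A : Matrix (Fin r) (Fin r) L) (x c : L) :
    (x • (1 : Matrix (Fin r) (Fin r) L) - c • A).det =
      (A.charpoly.roots.map fun a => x - c * a).prod := by
  have hcard := hkl_card A
  by_cases hc : c = 0
  · subst hc
    simp [hcard]
  · have h1 : x • (1 : Matrix (Fin r) (Fin r) L) - c • A =
        c • (Matrix.scalar (Fin r) (x / c) - A) := by
      rw [smul_sub]
      congr 1
      ext i j
      by_cases hij : i = j
      · subst hij
        simp [Matrix.scalar, mul_div_cancel₀, hc]
      · simp [Matrix.scalar, hij]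
    have h2 : (Matrix.scalar (Fin r) (x / c) - A).det =
        (A.charpoly.roots.map fun a => x / c - a).prod := by
      rw [← Matrix.eval_charpoly]
      conv_lhs => rw [(IsAlgClosed.splits A.charpoly).eq_prod_roots_of_monic A.charpoly_monic]
      rw [Polynomial.eval_multiset_prod, Multiset.map_map]
      congr 1
      refine Multiset.map_congr rfl fun a _ => ?_
      simp
    have h3 : (A.charpoly.roots.map fun a => x - c * a).prod =
        (A.charpoly.roots.map fun _ => c).prod *
          (A.charpoly.roots.map fun a => x / c - a).prod := by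
      rw [← Multiset.prod_map_mul]
      congr 1
      refine Multiset.map_congr rfl fun a _ => ?_
      field_simp
    rw [h1, Matrix.det_smul, h2, Fintype.card_fin, h3, Multiset.map_const', Multiset.prod_replicate,
      hcard]

/-- the eigenvalues of `A ^ k` -/
lemma hkl_roots_pow (A : Matrix (Fin r) (Fin r) L) (k : ℕ) (hk : 0 < k) :
    (A ^ k).charpoly.roots = A.charpoly.roots.map fun a => a ^ k := by
  have hk0 : NeZero k := ⟨hk.ne'⟩
  have hpoly : (A ^ k).charpoly =
      (A.charpoly.roots.map fun a => Polynomial.X - Polynomial.C (a ^ k)).prod := by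
    refine Polynomial.funext fun z => ?_
    obtain ⟨x, rfl⟩ := IsAlgClosed.exists_pow_nat_eq z hk
    obtain ⟨ζ, hζ⟩ : ∃ ζ : L, IsPrimitiveRoot ζ k :=
      HasEnoughRootsOfUnity.exists_primitiveRoot L k
    -- the polynomial identity
    have hid : (Polynomial.C (x ^ k) - Polynomial.X ^ k : L[X]) =
        ∏ ω ∈ nthRootsFinset k (1 : L), (Polynomial.C x - Polynomial.C ω * Polynomial.X) := by
      refine Polynomial.funext fun t => ?_
      rw [Polynomial.eval_prod]
      simp only [eval_sub, eval_C, eval_pow, eval_X, eval_mul]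
      exact hζ.pow_sub_pow_eq_prod_sub_mul x t hk
    let φ : L[X] →* L := (Matrix.detMonoidHom (n := Fin r) (R := L)).comp
      ((aeval A : L[X] →ₐ[L] Matrix (Fin r) (Fin r) L) : L[X] →* Matrix (Fin r) (Fin r) L)
    have h1 : φ (Polynomial.C (x ^ k) - Polynomial.X ^ k) = ((A ^ k).charpoly).eval (x ^ k) := by
      rw [Matrix.eval_charpoly]
      change (aeval A (Polynomial.C (x ^ k) - Polynomial.X ^ k : L[X])).det = _
      rw [map_sub, aeval_C, map_pow (aeval A) Polynomial.X k, aeval_X]
      rfl
    have h2 : ∀ ω : L, φ (Polynomial.C x - Polynomial.C ω * Polynomial.X) = (A.charpoly.roots.map fun a => x - ω * a).prod := by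
      intro ω
      rw [← hkl_det]
      change (aeval A (Polynomial.C x - Polynomial.C ω * Polynomial.X : L[X])).det = _
      rw [map_sub, aeval_C, map_mul, aeval_C, aeval_X, Algebra.algebraMap_eq_smul_one,
        Algebra.algebraMap_eq_smul_one, smul_mul_assoc, one_mul]
    rw [← h1, hid, map_prod, Finset.prod_congr rfl fun ω _ => h2 ω, Polynomial.eval_multiset_prod,
      Multiset.map_map]
    have h3 : ∀ (s : Multiset L), ∏ ω ∈ nthRootsFinset k (1 : L),
        (s.map fun a => x - ω * a).prod = (s.map fun a => x ^ k - a ^ k).prod := by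
      intro s
      induction s using Multiset.induction with
      | empty => simp
      | cons a s ih =>
        simp only [Multiset.map_cons, Multiset.prod_cons]
        rw [Finset.prod_mul_distrib, ih, hζ.pow_sub_pow_eq_prod_sub_mul x a hk]
    rw [h3]
    congr 1
    refine Multiset.map_congr rfl fun a _ => ?_
    simp
  have h4 : (A.charpoly.roots.map fun a => (Polynomial.X - Polynomial.C (a ^ k) : L[X])) =
      (A.charpoly.roots.map fun a => a ^ k).map fun b => Polynomial.X - Polynomial.C b := by
    rw [Multiset.map_map]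
    rfl
  rw [hpoly, h4, Polynomial.roots_multiset_prod_X_sub_C]

/-- the trace of `A ^ k` is a sum over the different eigenvalues -/
lemma hkl_trace (A : Matrix (Fin r) (Fin r) L) (k : ℕ) :
    (A ^ k).trace = ∑ b ∈ A.charpoly.roots.toFinset, (A.charpoly.roots.count b : L) * b ^ k := by
  have h0 : (A ^ k).trace = (A.charpoly.roots.map fun a => a ^ k).sum := by
    rcases Nat.eq_zero_or_pos k with rfl | hk
    · simp [hkl_card A]
    · rw [Matrix.trace_eq_sum_roots_charpoly, hkl_roots_pow A k hk]
  rw [h0, Finset.sum_multiset_map_count]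
  refine Finset.sum_congr rfl fun b _ => ?_
  rw [nsmul_eq_mul]

end

section

variable {K : Type} [Field K] [CharZero K] {n : ℕ}

/-- the Hankel matrix of the traces -/
noncomputable def hklH (A : Matrix (Fin n) (Fin n) K) (m : ℕ) : Matrix (Fin m) (Fin m) K :=
  Matrix.of fun a b : Fin m => (A ^ ((a : ℕ) + (b : ℕ))).trace

lemma hkl_fac (A : Matrix (Fin n) (Fin n) K) (m : ℕ) :
    (hklH A m).map (algebraMap K (AlgebraicClosure K)) =
      (Matrix.of fun (b : (A.charpoly.aroots (AlgebraicClosure K)).toFinset) (a : Fin m) =>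
        (b : AlgebraicClosure K) ^ (a : ℕ))ᵀ *
      (Matrix.diagonal (fun b : (A.charpoly.aroots (AlgebraicClosure K)).toFinset =>
        ((A.charpoly.aroots (AlgebraicClosure K)).count (b : AlgebraicClosure K) :
          AlgebraicClosure K)) *
      (Matrix.of fun (b : (A.charpoly.aroots (AlgebraicClosure K)).toFinset) (a : Fin m) =>
        (b : AlgebraicClosure K) ^ (a : ℕ))) := by
  have hr : (A.map (algebraMap K (AlgebraicClosure K))).charpoly.roots =
      A.charpoly.aroots (AlgebraicClosure K) := by
    rw [Matrix.charpoly_map]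
  ext a b
  rw [Matrix.map_apply, Matrix.mul_apply]
  have h1 : algebraMap K (AlgebraicClosure K) (hklH A m a b) =
      ((A.map (algebraMap K (AlgebraicClosure K))) ^ ((a : ℕ) + (b : ℕ))).trace := by
    rw [hklH, Matrix.of_apply, ← RingHom.mapMatrix_apply, ← map_pow, RingHom.mapMatrix_apply]
    simp only [Matrix.trace, Matrix.diag_apply, Matrix.map_apply, map_sum]
  rw [h1, hkl_trace, hr, ← Finset.sum_coe_sort]
  refine Finset.sum_congr rfl fun c _ => ?_
  rw [Matrix.transpose_apply, Matrix.of_apply, Matrix.diagonal_mul, Matrix.of_apply, pow_add]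
  ring

lemma hkl_le (A : Matrix (Fin n) (Fin n) K) (m : ℕ) (h : (hklH A m).det ≠ 0) : m ≤ nde A := by
  have h1 : ((hklH A m).map (algebraMap K (AlgebraicClosure K))).det ≠ 0 := by
    rw [← RingHom.mapMatrix_apply, ← RingHom.map_det]
    exact (_root_.map_ne_zero _).2 h
  have h2 := Matrix.rank_of_det_ne_zero h1
  rw [Fintype.card_fin] at h2
  rw [← h2, hkl_fac]
  refine (Matrix.rank_mul_le_left _ _).trans ?_
  refine (Matrix.rank_le_card_width _).trans ?_
  rw [Fintype.card_coe, nde]

lemma hkl_det_ne (A : Matrix (Fin n) (Fin n) K) : (hklH A (nde A)).det ≠ 0 := by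
  have h1 : ((hklH A (nde A)).map (algebraMap K (AlgebraicClosure K))).det ≠ 0 := by
    let e : Fin (nde A) ≃ (A.charpoly.aroots (AlgebraicClosure K)).toFinset :=
      (Fintype.equivFinOfCardEq (by rw [Fintype.card_coe, nde])).symm
    rw [hkl_fac]
    have h2 : (Matrix.of fun (b : (A.charpoly.aroots (AlgebraicClosure K)).toFinset)
        (a : Fin (nde A)) => (b : AlgebraicClosure K) ^ (a : ℕ)) =
        (Matrix.vandermonde fun i => ((e i : (A.charpoly.aroots (AlgebraicClosure K)).toFinset) :
          AlgebraicClosure K)).submatrix e.symm id := by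
      ext b a
      simp [Matrix.vandermonde]
    rw [h2]
    have h3 : Matrix.diagonal (fun b : (A.charpoly.aroots (AlgebraicClosure K)).toFinset =>
        ((A.charpoly.aroots (AlgebraicClosure K)).count (b : AlgebraicClosure K) :
          AlgebraicClosure K)) = (Matrix.diagonal fun i =>
        ((A.charpoly.aroots (AlgebraicClosure K)).count (e i : AlgebraicClosure K) :
          AlgebraicClosure K)).submatrix e.symm e.symm := by
      rw [Matrix.submatrix_diagonal_equiv]
      congr 1
      funext b
      simp
    rw [h3, Matrix.submatrix_mul_equiv, Matrix.transpose_submatrix, Matrix.submatrix_mul_equiv,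
      Matrix.submatrix_id_id, Matrix.det_mul, Matrix.det_mul, Matrix.det_transpose,
      Matrix.det_diagonal]
    have hv : (Matrix.vandermonde fun i =>
        ((e i : (A.charpoly.aroots (AlgebraicClosure K)).toFinset) :
          AlgebraicClosure K)).det ≠ 0 := by
      rw [Matrix.det_vandermonde_ne_zero_iff]
      intro i j hij
      exact e.injective (Subtype.ext hij)
    refine mul_ne_zero hv (mul_ne_zero ?_ hv)
    rw [Finset.prod_ne_zero_iff]
    intro i _
    rw [Nat.cast_ne_zero, ← Nat.pos_iff_ne_zero, Multiset.count_pos]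
    exact Multiset.mem_toFinset.1 (e i).2
  rw [← RingHom.mapMatrix_apply, ← RingHom.map_det] at h1
  exact (_root_.map_ne_zero _).1 h1

omit [CharZero K] in
lemma hkl_nde_le (A : Matrix (Fin n) (Fin n) K) : nde A ≤ n := by
  refine (Multiset.toFinset_card_le _).trans ?_
  refine (Polynomial.card_roots' _).trans ?_
  rw [Polynomial.natDegree_map, Matrix.charpoly_natDegree_eq_dim, Fintype.card_fin]

omit [CharZero K] in
/-- the rank does not change under a field extension -/
theorem hkl_rank_map {C : Type} [Field C] {k : ℕ} (M : Matrix (Fin k) (Fin k) K) (φ : K →+* C) :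
    (M.map φ).rank = M.rank := by
  obtain ⟨V, U, e, hV, hU, hVMU⟩ := Matrix.exists_rank_normal_form M
  have hVd : IsUnit V.det := (Matrix.isUnit_iff_isUnit_det V).mp hV
  have hUd : IsUnit U.det := (Matrix.isUnit_iff_isUnit_det U).mp hU
  have hVd' : IsUnit (V.map φ).det := by
    have h1 : (V.map φ).det = φ V.det := (RingHom.map_det φ V).symm
    rw [h1]
    exact hVd.map φ
  have hUd' : IsUnit (U.map φ).det := by
    have h1 : (U.map φ).det = φ U.det := (RingHom.map_det φ U).symm
    rw [h1]
    exact hUd.map φ
  have hdiag : ∀ (R : Type) [Field R],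
      ((Matrix.fromBlocks 1 0 0 0 : Matrix (Fin M.rank ⊕ Fin (Fintype.card (Fin k) - M.rank))
        (Fin M.rank ⊕ Fin (Fintype.card (Fin k) - M.rank)) R).submatrix e e) =
      Matrix.diagonal fun i => if (e i).isLeft then 1 else 0 := by
    intro R _
    rw [← Matrix.diagonal_one, ← Matrix.diagonal_zero, Matrix.fromBlocks_diagonal,
      Matrix.submatrix_diagonal_equiv]
    congr 1
    funext i
    rcases h : e i with a | b <;> simp [h]
  have hrk : ∀ (R : Type) [Field R],
      (Matrix.diagonal fun i => if (e i).isLeft then (1 : R) else 0).rank =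
        Fintype.card {i // (e i).isLeft = true} := by
    intro R _
    rw [Matrix.rank_diagonal]
    apply Fintype.card_congr
    apply Equiv.subtypeEquivRight
    intro i
    by_cases h : (e i).isLeft = true <;> simp [h]
  have h1 : (V * M * U).rank = M.rank := by
    rw [Matrix.rank_mul_eq_left_of_isUnit_det U (V * M) hUd,
      Matrix.rank_mul_eq_right_of_isUnit_det V M hVd]
  have h2 : (V.map φ * M.map φ * U.map φ).rank = (M.map φ).rank := by
    rw [Matrix.rank_mul_eq_left_of_isUnit_det (U.map φ) (V.map φ * M.map φ) hUd',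
      Matrix.rank_mul_eq_right_of_isUnit_det (V.map φ) (M.map φ) hVd']
  rw [← h1, ← h2, hVMU, hdiag K, hrk K, ← Matrix.map_mul, ← Matrix.map_mul, hVMU, hdiag K,
    Matrix.diagonal_map (map_zero φ)]
  rw [← hrk C]
  congr 2
  funext i
  by_cases h : (e i).isLeft = true <;> simp [h]

lemma hkl_rank (A : Matrix (Fin n) (Fin n) K) : (hklH A n).rank = nde A := by
  apply le_antisymm
  · rw [← hkl_rank_map (hklH A n) (algebraMap K (AlgebraicClosure K)), hkl_fac]
    refine (Matrix.rank_mul_le_left _ _).trans ?_
    refine (Matrix.rank_le_card_width _).trans ?_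
    rw [Fintype.card_coe, nde]
  · have h1 := Matrix.rank_of_det_ne_zero (hkl_det_ne A)
    rw [Fintype.card_fin] at h1
    have h2 : hklH A (nde A) = (hklH A n).submatrix (Fin.castLE (hkl_nde_le A))
        (Fin.castLE (hkl_nde_le A)) := by
      ext a b
      rfl
    rw [← h1]
    conv_lhs => rw [h2]
    exact Matrix.rank_submatrix_le _ _ _

end

theorem st_HKL : ST_HKL := by
  intro K _ _ n A
  refine ⟨(hkl_rank A).symm, fun k => ⟨fun hk => ?_, fun hk => ?_⟩⟩
  · exact Or.inr ⟨nde A, hk, hkl_det_ne A⟩
  · rcases hk with rfl | ⟨m, hm, hd⟩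
    · exact Nat.zero_le _
    · exact hm.trans (hkl_le A m hd)

end REC
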