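import Pool.Agent.Helper85.REC.Stmts11
import Pool.Agent.Helper43.MU.Sub

/-!
# REC, MXP: mixed pairs
-/

set_option autoImplicit false

open scoped Classical
open NumberField Polynomial

namespace REC

open Pool.Agent.Helper13.ZL (Pl q)
open MU

theorem mxp_zero {K : Type} [Field K] {n n' : ℕ} (f : Matrix (Fin n') (Fin n) K)
    (hf : ∀ v, f.mulVec v = 0) : f = 0 := by
  ext i j
  have h1 := congrFun (hf (Pi.single j 1)) i
  rw [Matrix.mulVec_single_one] at h1
  exact h1

/-- a homomorphism onto an irreducible representation is zero or surjective -/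
theorem mxp_surj {G K : Type} [Group G] [Field K] {n n' : ℕ}
    (r : G →* Matrix (Fin n) (Fin n) K) (s : G →* Matrix (Fin n') (Fin n') K)
    (hs : IsIrr s) (u : Matrix (Fin n') (Fin n) K) (hu : ∀ g, u * r g = s g * u) (h0 : u ≠ 0) :
    LinearMap.range u.mulVecLin = ⊤ := by
  rcases irr_stable hs (LinearMap.range u.mulVecLin) (by
    rintro g _ ⟨v, rfl⟩
    refine ⟨(r g).mulVec v, ?_⟩
    rw [Matrix.mulVecLin_apply, Matrix.mulVecLin_apply, Matrix.mulVec_mulVec, hu,
      ← Matrix.mulVec_mulVec]) with h | h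
  · exfalso
    apply h0
    apply mxp_zero
    intro v
    have h2 : u.mulVecLin v ∈ LinearMap.range u.mulVecLin := ⟨v, rfl⟩
    rw [h, Submodule.mem_bot] at h2
    exact h2
  · exact h

/-- a homomorphism from an irreducible representation is zero or injective -/
theorem mxp_inj {G K : Type} [Group G] [Field K] {n n' : ℕ}
    (r : G →* Matrix (Fin n) (Fin n) K) (s : G →* Matrix (Fin n') (Fin n') K)
    (hr : IsIrr r) (u : Matrix (Fin n') (Fin n) K) (hu : ∀ g, u * r g = s g * u) (h0 : u ≠ 0) :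
    LinearMap.ker u.mulVecLin = ⊥ := by
  rcases irr_stable hr (LinearMap.ker u.mulVecLin) (by
    intro g v hv
    rw [LinearMap.mem_ker, Matrix.mulVecLin_apply] at hv ⊢
    rw [Matrix.mulVec_mulVec, hu, ← Matrix.mulVec_mulVec, hv, Matrix.mulVec_zero]) with h | h
  · exact h
  · exfalso
    apply h0
    apply mxp_zero
    intro v
    have h2 : v ∈ LinearMap.ker u.mulVecLin := by rw [h]; trivial
    exact h2

theorem mxp_eq {K : Type} [Field K] {n n' : ℕ} (A B : Matrix (Fin n') (Fin n) K)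
    (h : ∀ v, A.mulVec v = B.mulVec v) : A = B := by
  rw [← sub_eq_zero]
  apply mxp_zero
  intro v
  rw [Matrix.sub_mulVec, h v, sub_self]

/-- quotients of commuting matrices commute -/
theorem mxp_comm_surj {G K : Type} [Group G] [Field K] {n n' : ℕ}
    (r : G →* Matrix (Fin n) (Fin n) K) (s : G →* Matrix (Fin n') (Fin n') K)
    (u : Matrix (Fin n') (Fin n) K) (hu : ∀ g, u * r g = s g * u)
    (ht : LinearMap.range u.mulVecLin = ⊤) (g g' : G) (hc : r g * r g' = r g' * r g) :
    s g * s g' = s g' * s g := by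
  apply mxp_eq
  intro v
  obtain ⟨x, hx⟩ : v ∈ LinearMap.range u.mulVecLin := by rw [ht]; trivial
  rw [← hx, Matrix.mulVecLin_apply, Matrix.mulVec_mulVec, Matrix.mulVec_mulVec, Matrix.mul_assoc,
    ← hu, ← Matrix.mul_assoc, ← hu, Matrix.mul_assoc, hc, ← Matrix.mul_assoc, hu,
    Matrix.mul_assoc, hu, ← Matrix.mul_assoc]

/-- restrictions of commuting matrices commute -/
theorem mxp_comm_inj {G K : Type} [Group G] [Field K] {n n' : ℕ}
    (r : G →* Matrix (Fin n) (Fin n) K) (s : G →* Matrix (Fin n') (Fin n') K)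
    (u : Matrix (Fin n') (Fin n) K) (hu : ∀ g, u * r g = s g * u)
    (ht : LinearMap.ker u.mulVecLin = ⊥) (g g' : G) (hc : s g * s g' = s g' * s g) :
    r g * r g' = r g' * r g := by
  apply mxp_eq
  intro v
  have hi := LinearMap.ker_eq_bot.1 ht
  apply hi
  rw [Matrix.mulVecLin_apply, Matrix.mulVecLin_apply, Matrix.mulVec_mulVec, Matrix.mulVec_mulVec]
  congr 1
  rw [← Matrix.mul_assoc, hu, Matrix.mul_assoc, hu, ← Matrix.mul_assoc, hc, Matrix.mul_assoc, ← hu,
    ← Matrix.mul_assoc, ← hu, Matrix.mul_assoc]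

theorem mxp_res {G : Type} [Group G] {n l : ℕ} [Fact l.Prime]
    (r : G →* Matrix.GeneralLinearGroup (Fin n) ℤ_[l]) (g g' : G) (h : r g * r g' = r g' * r g) :
    res r g * res r g' = res r g' * res r g := by
  rw [← map_mul, ← map_mul]
  have h1 : ∀ a : G, res r a = ((r a : Matrix.GeneralLinearGroup (Fin n) ℤ_[l]) :
      Matrix (Fin n) (Fin n) ℤ_[l]).map (PadicInt.toZMod (p := l)) := fun a => rfl
  rw [h1, h1, map_mul, map_mul, h]

theorem st_MXP : ST_MXP := by
  intro F _ _ S n n' w h h' M M' hP hA hN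
  obtain ⟨-, H, hH, hcomm⟩ := hP
  obtain ⟨c, hc⟩ := hN H hH
  obtain ⟨-, c', hc'⟩ := hA
  constructor
  · refine ⟨max c c', fun l _ hl u hu => ?_⟩
    have hl1 : c < l := lt_of_le_of_lt (le_max_left _ _) hl
    have hl2 : c' < l := lt_of_le_of_lt (le_max_right _ _) hl
    obtain ⟨g, hg, g', hg', hne⟩ := hc l hl1
    have hu0 : u = 0 := by
      by_contra h0
      have ht := mxp_surj _ _ (hc' l hl2).1 u hu h0
      exact hne (mxp_comm_surj _ _ u hu ht g g' (mxp_res _ g g' (hcomm l g hg g' hg')))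
    refine ⟨0, ?_, fun g => ?_⟩
    · rw [hu0]
      ext i j
      simp
    · rw [Matrix.zero_mul, Matrix.mul_zero]
  · refine ⟨max c c', fun l _ hl u hu => ?_⟩
    have hl1 : c < l := lt_of_le_of_lt (le_max_left _ _) hl
    have hl2 : c' < l := lt_of_le_of_lt (le_max_right _ _) hl
    obtain ⟨g, hg, g', hg', hne⟩ := hc l hl1
    have hu0 : u = 0 := by
      by_contra h0
      have ht := mxp_inj _ _ (hc' l hl2).1 u hu h0
      exact hne (mxp_comm_inj _ _ u hu ht g g' (mxp_res _ g g' (hcomm l g hg g' hg')))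
    refine ⟨0, ?_, fun g => ?_⟩
    · rw [hu0]
      ext i j
      simp
    · rw [Matrix.zero_mul, Matrix.mul_zero]

end REC
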