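import Pool.Agent.Helper57.REC.Stmts1

/-!
# REC: APX, approximation at finite places and at the real places
-/

set_option autoImplicit false

open scoped Classical
open NumberField

namespace Pool.Agent.Helper48.REC

open Pool.Agent.Helper13.ZL (Pl q HasMean)

variable {F : Type} [Field F] [NumberField F]

/-- the infinite place of a real embedding -/
noncomputable def wr (σ : F →+* ℝ) : InfinitePlace F := InfinitePlace.mk (Complex.ofRealHom.comp σ)

lemma wr_apply (σ : F →+* ℝ) (x : F) : (wr σ) x = |σ x| := by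
  simp [wr, InfinitePlace.apply]

lemma wr_inj {σ τ : F →+* ℝ} (h : wr σ = wr τ) : σ = τ := by
  have h1 := InfinitePlace.mk_eq_iff.1 h
  have h2 : Complex.ofRealHom.comp σ = Complex.ofRealHom.comp τ := by
    rcases h1 with h1 | h1
    · exact h1
    · have : ComplexEmbedding.conjugate (Complex.ofRealHom.comp σ) = Complex.ofRealHom.comp σ := by
        ext x; simp [ComplexEmbedding.conjugate_coe_eq]
      rw [this] at h1; exact h1
  ext x
  have := congrArg (fun f : F →+* ℂ => f x) h2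
  simpa using this

lemma exists_sign (ε : (F →+* ℝ) → ℝ) (hε : ∀ σ, ε σ ≠ 0) :
    ∃ z : F, z ≠ 0 ∧ ∀ σ : F →+* ℝ, 0 < ε σ * σ z := by
  let s : InfinitePlace F → F := fun w => if ∃ σ, wr σ = w ∧ 0 < ε σ then 1 else -1
  obtain ⟨z, hz⟩ := Metric.denseRange_iff.1 (InfinitePlace.denseRange_algebraMap_pi F)
    (fun w => WithAbs.toAbs w.1 (s w)) 1 one_pos
  rw [dist_pi_lt_iff one_pos] at hz
  have hz' : ∀ w : InfinitePlace F, w (s w - z) < 1 := by
    intro w
    have := hz w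
    rw [dist_eq_norm] at this
    exact this
  refine ⟨z, ?_, ?_⟩
  · rintro rfl
    obtain ⟨w⟩ : Nonempty (InfinitePlace F) := inferInstance
    have h := hz' w
    rw [sub_zero] at h
    simp only [s] at h
    split_ifs at h
    · rw [map_one] at h; exact lt_irrefl _ h
    · have : w (-1 : F) = 1 := by
        rw [InfinitePlace.coe_apply, AbsoluteValue.map_neg, AbsoluteValue.map_one]
      rw [this] at h; exact lt_irrefl _ h
  · intro σ
    have h := hz' (wr σ)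
    rw [wr_apply] at h
    by_cases hs : 0 < ε σ
    · have : s (wr σ) = 1 := if_pos ⟨σ, rfl, hs⟩
      rw [this, map_sub, map_one, abs_lt] at h
      exact mul_pos hs (by linarith)
    · have hs' : ε σ < 0 := lt_of_le_of_ne (not_lt.1 hs) (hε σ)
      have : s (wr σ) = -1 := if_neg (by
        rintro ⟨τ, h1, h2⟩
        rw [wr_inj h1] at h2; exact hs h2)
      rw [this, map_sub, map_neg, map_one, abs_lt] at h
      exact mul_pos_of_neg_of_neg hs' (by linarith)

lemma exists_sign_int (ε : (F →+* ℝ) → ℝ) (hε : ∀ σ, ε σ ≠ 0) :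
    ∃ z : 𝓞 F, z ≠ 0 ∧ ∀ σ : F →+* ℝ, 0 < ε σ * σ (z : F) := by
  obtain ⟨z, hz0, hz⟩ := exists_sign ε hε
  obtain ⟨a, b, hb, hab⟩ := IsFractionRing.div_surjective (A := 𝓞 F) z
  have hb0 : b ≠ 0 := nonZeroDivisors.ne_zero hb
  have hb1 : (algebraMap (𝓞 F) F b) ≠ 0 := by
    simpa using hb0
  have key : (algebraMap (𝓞 F) F (a * b)) = z * (algebraMap (𝓞 F) F b) ^ 2 := by
    rw [map_mul, ← hab]; field_simp
  refine ⟨a * b, ?_, ?_⟩
  · intro h
    rw [h, map_zero] at key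
    have := (mul_eq_zero.1 key.symm)
    rcases this with h | h
    · exact hz0 h
    · exact hb1 (pow_eq_zero_iff (two_ne_zero) |>.1 h)
  · intro σ
    have : σ ((a * b : 𝓞 F) : F) = σ z * (σ (algebraMap (𝓞 F) F b)) ^ 2 := by
      rw [show ((a * b : 𝓞 F) : F) = algebraMap (𝓞 F) F (a * b) from rfl, key, map_mul, map_pow]
    rw [this, ← mul_assoc]
    refine mul_pos (hz σ) (pow_pos_of_ne σ hb1)
where
  pow_pos_of_ne (σ : F →+* ℝ) {b : 𝓞 F} (hb1 : (algebraMap (𝓞 F) F b) ≠ 0) :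
      0 < (σ (algebraMap (𝓞 F) F b)) ^ 2 := by
    have : σ (algebraMap (𝓞 F) F b) ≠ 0 := by
      intro h; exact hb1 ((map_eq_zero σ).1 h)
    positivity

theorem st_APX : _root_.REC.ST_APX := by
  intro F _ _ B N a ε hε
  -- CRT
  obtain ⟨x₀, hx₀⟩ := IsDedekindDomain.exists_forall_sub_mem_ideal (s := B)
    (fun v : Pl F => v.asIdeal) (fun _ => N) (fun v _ => v.prime)
    (fun v _ w _ hvw h => hvw (IsDedekindDomain.HeightOneSpectrum.ext h)) (fun v => a v)
  obtain ⟨z, hz0, hz⟩ := exists_sign_int ε hε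
  -- a positive integer in all `v ^ N`
  let m : ℕ := ∏ v ∈ B, (q v) ^ N
  have hm0 : m ≠ 0 := by
    refine Finset.prod_ne_zero_iff.2 fun v _ => pow_ne_zero _ ?_
    exact (Ideal.absNorm_eq_zero_iff.not.2 v.ne_bot)
  have hm : ∀ v ∈ B, (m : 𝓞 F) ∈ v.asIdeal ^ N := by
    intro v hv
    have h1 : ((q v : 𝓞 F)) ^ N ∣ (m : 𝓞 F) := by
      have : (q v) ^ N ∣ m := Finset.dvd_prod_of_mem (fun v => (q v) ^ N) hv
      exact_mod_cast (Nat.cast_dvd_cast (α := 𝓞 F) this)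
    exact Ideal.mem_of_dvd _ h1 (Ideal.pow_mem_pow (Ideal.absNorm_mem _) N)
  have hmz : (m : 𝓞 F) * z ≠ 0 := mul_ne_zero (by exact_mod_cast hm0) hz0
  -- the bound
  have hT : ∃ T : ℕ, ∀ t : ℕ, T ≤ t → ∀ σ : F →+* ℝ, 0 < ε σ * σ ((x₀ + t * (m * z) : 𝓞 F) : F) := by
    have h1 : ∀ σ : F →+* ℝ, ∃ T : ℕ, ∀ t : ℕ, T ≤ t →
        0 < ε σ * σ ((x₀ + t * (m * z) : 𝓞 F) : F) := by
      intro σ
      have hc : 0 < (m : ℝ) * (ε σ * σ (z : F)) :=
        mul_pos (by exact_mod_cast Nat.pos_of_ne_zero hm0) (hz σ)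
      obtain ⟨T, hT⟩ := exists_nat_gt (|ε σ * σ (x₀ : F)| / ((m : ℝ) * (ε σ * σ (z : F))))
      refine ⟨T, fun t ht => ?_⟩
      rw [div_lt_iff₀ hc] at hT
      have h2 : (T : ℝ) * ((m : ℝ) * (ε σ * σ (z : F))) ≤ t * ((m : ℝ) * (ε σ * σ (z : F))) :=
        mul_le_mul_of_nonneg_right (by exact_mod_cast ht) hc.le
      have h3 : ε σ * σ ((x₀ + t * (m * z) : 𝓞 F) : F) =
          ε σ * σ (x₀ : F) + t * ((m : ℝ) * (ε σ * σ (z : F))) := by
        push_cast
        simp only [map_add, map_mul, map_natCast]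
        ring
      rw [h3]
      have h4 := neg_abs_le (ε σ * σ (x₀ : F))
      linarith
    choose T hT using h1
    haveI : Finite (F →+* ℝ) :=
      Finite.of_injective (fun σ : F →+* ℝ => wr σ) (fun σ τ h => wr_inj h)
    haveI := Fintype.ofFinite (F →+* ℝ)
    exact ⟨∑ σ, T σ, fun t ht σ => hT σ t (le_trans (Finset.single_le_sum
      (f := T) (fun _ _ => Nat.zero_le _) (Finset.mem_univ σ)) ht)⟩
  obtain ⟨T, hT⟩ := hT
  have hcong : ∀ t : ℕ, ∀ v ∈ B, (x₀ + t * (m * z)) - a v ∈ v.asIdeal ^ N := by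
    intro t v hv
    have h1 := hx₀ v hv
    have h2 : (t : 𝓞 F) * (m * z) ∈ v.asIdeal ^ N :=
      Ideal.mul_mem_left _ _ (Ideal.mul_mem_right _ _ (hm v hv))
    have : (x₀ + t * (m * z)) - a v = (x₀ - a v) + t * (m * z) := by ring
    rw [this]
    exact Ideal.add_mem _ h1 h2
  by_cases h : x₀ + (T : 𝓞 F) * (m * z) = 0
  · refine ⟨x₀ + ((T + 1 : ℕ) : 𝓞 F) * (m * z), ?_, hcong _, hT _ (Nat.le_succ T)⟩
    have : x₀ + ((T + 1 : ℕ) : 𝓞 F) * (m * z) = (x₀ + (T : 𝓞 F) * (m * z)) + m * z := by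
      push_cast; ring
    rw [this, h, zero_add]; exact hmz
  · exact ⟨_, h, hcong _, hT _ le_rfl⟩

end Pool.Agent.Helper48.REC
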