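import Pool.Agent.Helper57.REC.StmtsX

/-!
# REC, ESP: the polynomial describing the products of `j` of the `m` roots
-/

set_option autoImplicit false

open scoped Classical
open Polynomial

namespace REC

/-- the product over all subsets `J` of cardinality `j` of `X - ∏ i ∈ J, t i` -/
noncomputable def espG (m j : ℕ) : MvPolynomial (Fin m) ℤ[X] :=
  ∏ J ∈ (Finset.univ : Finset (Fin m)).powersetCard j,
    (MvPolynomial.C Polynomial.X - ∏ i ∈ J, MvPolynomial.X i)

theorem esp_symm (m j : ℕ) : (espG m j).IsSymmetric := by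
  intro e
  rw [espG, map_prod]
  refine Finset.prod_bij (fun J _ => J.map e.toEmbedding) ?_ ?_ ?_ ?_
  · intro J hJ
    rw [Finset.mem_powersetCard] at hJ ⊢
    exact ⟨Finset.subset_univ _, by rw [Finset.card_map, hJ.2]⟩
  · intro J _ J' _ h
    exact Finset.map_injective _ h
  · intro J hJ
    rw [Finset.mem_powersetCard] at hJ
    refine ⟨J.map e.symm.toEmbedding, ?_, ?_⟩
    · rw [Finset.mem_powersetCard]
      exact ⟨Finset.subset_univ _, by rw [Finset.card_map, hJ.2]⟩
    · ext x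
      simp
  · intro J _
    rw [map_sub, map_prod, MvPolynomial.rename_C, Finset.prod_map]
    simp only [MvPolynomial.rename_X]
    rfl

/-- submultisets of a family -/
theorem esp_sub {Ω : Type} [Field Ω] {m : ℕ} (t : Fin m → Ω) (j : ℕ) (a : Ω) :
    (∃ s : Multiset Ω, s ≤ Finset.univ.val.map t ∧ s.card = j ∧ s.prod = a) ↔
      ∃ J ∈ (Finset.univ : Finset (Fin m)).powersetCard j, ∏ i ∈ J, t i = a := by
  constructor
  · rintro ⟨s, h1, h2, h3⟩
    have h4 : s ∈ Multiset.powersetCard j (Finset.univ.val.map t) :=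
      Multiset.mem_powersetCard.2 ⟨h1, h2⟩
    rw [Multiset.powersetCard_map, Multiset.mem_map] at h4
    obtain ⟨s', h5, h6⟩ := h4
    rw [← Finset.map_val_val_powersetCard, Multiset.mem_map] at h5
    obtain ⟨J, h7, h8⟩ := h5
    refine ⟨J, h7, ?_⟩
    rw [← h3, ← h6, ← h8]
    rfl
  · rintro ⟨J, h1, h2⟩
    rw [Finset.mem_powersetCard] at h1
    refine ⟨J.val.map t, Multiset.map_le_map (Finset.val_le_iff.2 h1.1), ?_, h2⟩
    rw [Multiset.card_map]
    exact h1.2

/-- the roots as a family -/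
theorem esp_roots {Ω : Type} [Field Ω] {m : ℕ} (s : Multiset Ω) (h : s.card = m) :
    ∃ t : Fin m → Ω, Finset.univ.val.map t = s := by
  subst h
  obtain ⟨L, hL⟩ : ∃ L : List Ω, (L : Multiset Ω) = s := ⟨s.toList, s.coe_toList⟩
  subst hL
  refine ⟨fun i => L.get (Fin.cast (Multiset.coe_card L) i), ?_⟩
  change Finset.univ.val.map (fun i : Fin L.length => L.get i) = _
  rw [Fin.univ_val_map, List.ofFn_get]

theorem st_ESP : ST_ESP := by
  intro m j
  obtain ⟨G', hG'⟩ := (MvPolynomial.esymmAlgEquiv (Fin m) ℤ[X] (Fintype.card_fin m)).surjective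
    ⟨espG m j, esp_symm m j⟩
  have hG : MvPolynomial.aeval (fun i : Fin m => MvPolynomial.esymm (Fin m) ℤ[X] (i + 1)) G' =
      espG m j := by
    have h1 := congrArg Subtype.val hG'
    exact ((MvPolynomial.esymmAlgHom_apply (σ := Fin m) (n := m) G').symm).trans h1
  let Φ : MvPolynomial (Fin m) ℤ[X] →+* MvPolynomial ℕ ℤ :=
    MvPolynomial.eval₂Hom (Polynomial.eval₂RingHom (Int.castRingHom _) (MvPolynomial.X 0))
      (fun i => (-1) ^ ((i : ℕ) + 1) * MvPolynomial.X (m - ((i : ℕ) + 1) + 1))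
  refine ⟨Φ G', ?_⟩
  intro Ω _ _ f hf hdeg a
  have hcard : f.roots.card = f.natDegree := by
    exact (Polynomial.splits_iff_card_roots.1 (IsAlgClosed.splits f))
  obtain ⟨t, ht⟩ := esp_roots f.roots (hcard.trans hdeg)
  -- evaluate
  let ε : ℤ[X] →+* Ω := Polynomial.eval₂RingHom (Int.castRingHom Ω) a
  have h1 : MvPolynomial.aeval (Cof a f) (Φ G') = MvPolynomial.eval₂Hom ε
      (fun i : Fin m => (-1) ^ ((i : ℕ) + 1) * f.coeff (m - ((i : ℕ) + 1))) G' := by
    have h2 : ((MvPolynomial.aeval (Cof a f) : MvPolynomial ℕ ℤ →ₐ[ℤ] Ω).toRingHom.comp Φ) =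
        MvPolynomial.eval₂Hom ε
          (fun i : Fin m => (-1) ^ ((i : ℕ) + 1) * f.coeff (m - ((i : ℕ) + 1))) := by
      apply MvPolynomial.ringHom_ext'
      · apply Polynomial.ringHom_ext'
        · exact Subsingleton.elim _ _
        · simp [Φ, ε, Cof]
      · intro i
        simp [Φ, Cof]
    exact RingHom.congr_fun h2 G'
  have h3 : ∀ i : Fin m, (-1) ^ ((i : ℕ) + 1) * f.coeff (m - ((i : ℕ) + 1)) =
      (Finset.univ.val.map t).esymm ((i : ℕ) + 1) := by
    intro i
    have hi := i.2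
    rw [Polynomial.coeff_eq_esymm_roots_of_card hcard (by rw [hdeg]; omega), hf.leadingCoeff,
      one_mul, hdeg, ht, show m - (m - ((i : ℕ) + 1)) = (i : ℕ) + 1 by omega, ← mul_assoc,
      ← pow_add, Even.neg_one_pow (by exact ⟨_, rfl⟩), one_mul]
  have h4 : MvPolynomial.eval₂Hom ε
      (fun i : Fin m => (-1) ^ ((i : ℕ) + 1) * f.coeff (m - ((i : ℕ) + 1))) G' =
      MvPolynomial.eval₂Hom ε t (espG m j) := by
    rw [← hG]
    have h5 : (MvPolynomial.eval₂Hom ε t).comp
        ((MvPolynomial.aeval (fun i : Fin m => MvPolynomial.esymm (Fin m) ℤ[X] (i + 1)) :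
          MvPolynomial (Fin m) ℤ[X] →ₐ[ℤ[X]] MvPolynomial (Fin m) ℤ[X]).toRingHom) =
        MvPolynomial.eval₂Hom ε
          (fun i : Fin m => (-1) ^ ((i : ℕ) + 1) * f.coeff (m - ((i : ℕ) + 1))) := by
      apply MvPolynomial.ringHom_ext'
      · apply Polynomial.ringHom_ext'
        · exact Subsingleton.elim _ _
        · simp
      · intro i
        rw [MvPolynomial.eval₂Hom_X', h3]
        let _ : Algebra ℤ[X] Ω := ε.toAlgebra
        have h6 := MvPolynomial.aeval_esymm_eq_multiset_esymm (Fin m) ℤ[X] ((i : ℕ) + 1) t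
        rw [← h6, RingHom.comp_apply]
        have h7 : (MvPolynomial.aeval
            (fun i : Fin m => MvPolynomial.esymm (Fin m) ℤ[X] (i + 1)) :
              MvPolynomial (Fin m) ℤ[X] →ₐ[ℤ[X]] MvPolynomial (Fin m) ℤ[X]).toRingHom
              (MvPolynomial.X i) = MvPolynomial.esymm (Fin m) ℤ[X] (i + 1) :=
          MvPolynomial.aeval_X _ i
        rw [h7]
        rfl
    exact (RingHom.congr_fun h5 G').symm
  rw [h1, h4, ← ht, esp_sub t j a, espG, map_prod, Finset.prod_eq_zero_iff]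
  constructor
  · rintro ⟨J, hJ, h⟩
    refine ⟨J, hJ, ?_⟩
    rw [map_sub, map_prod, MvPolynomial.eval₂Hom_C, sub_eq_zero] at h
    simp only [MvPolynomial.eval₂Hom_X'] at h
    rw [← h]
    simp [ε]
  · rintro ⟨J, hJ, h⟩
    refine ⟨J, hJ, ?_⟩
    rw [map_sub, map_prod, MvPolynomial.eval₂Hom_C, sub_eq_zero]
    simp only [MvPolynomial.eval₂Hom_X']
    rw [h]
    simp [ε]

end REC
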