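import Pool.Agent.Helper48.REC.APX

/-!
# REC: PRT, every ray class contains ideals prime to a given finite set
-/

set_option autoImplicit false

open scoped Classical
open NumberField

namespace Pool.Agent.Helper48.REC

open Pool.Agent.Helper13.ZL (Pl q HasMean)

variable {F : Type} [Field F] [NumberField F]

instance finite_real_emb : Finite (F →+* ℝ) :=
  Finite.of_injective (fun σ : F →+* ℝ => wr σ) (fun _ _ h => wr_inj h)

/-- adding a large multiple of a positive integer makes an integer totally positive and nonzero -/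
lemma exists_add_totPos (y : 𝓞 F) (n : ℕ) (hn : n ≠ 0) :
    ∃ t : ℕ, y + t * (n : 𝓞 F) ≠ 0 ∧ _root_.REC.TotPos ((y + t * (n : 𝓞 F) : 𝓞 F) : F) := by
  have h1 : ∀ σ : F →+* ℝ, ∃ T : ℕ, ∀ t : ℕ, T ≤ t →
      0 < σ ((y + t * (n : 𝓞 F) : 𝓞 F) : F) := by
    intro σ
    obtain ⟨T, hT⟩ := exists_nat_gt |σ (y : F)|
    refine ⟨T, fun t ht => ?_⟩
    have h3 : σ ((y + t * (n : 𝓞 F) : 𝓞 F) : F) = σ (y : F) + t * n := by
      push_cast
      simp only [map_add, map_mul, map_natCast]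
    rw [h3]
    have h4 := neg_abs_le (σ (y : F))
    have h5 : (T : ℝ) ≤ t := by exact_mod_cast ht
    have h6 : (1 : ℝ) ≤ n := by exact_mod_cast Nat.pos_of_ne_zero hn
    have h7 : (t : ℝ) ≤ t * n := by nlinarith [Nat.cast_nonneg (α := ℝ) t]
    linarith
  choose T hT using h1
  have := Fintype.ofFinite (F →+* ℝ)
  have hT' : ∀ t : ℕ, (∑ σ, T σ) ≤ t → _root_.REC.TotPos ((y + t * (n : 𝓞 F) : 𝓞 F) : F) :=
    fun t ht σ => hT σ t (le_trans (Finset.single_le_sum
      (f := T) (fun _ _ => Nat.zero_le _) (Finset.mem_univ σ)) ht)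
  by_cases h : y + ((∑ σ, T σ : ℕ) : 𝓞 F) * (n : 𝓞 F) = 0
  · refine ⟨(∑ σ, T σ) + 1, ?_, hT' _ (Nat.le_succ _)⟩
    have : y + (((∑ σ, T σ) + 1 : ℕ) : 𝓞 F) * (n : 𝓞 F)
        = (y + ((∑ σ, T σ : ℕ) : 𝓞 F) * (n : 𝓞 F)) + n := by
      rw [Nat.cast_succ]; ring
    rw [this, h, zero_add]; exact_mod_cast hn
  · exact ⟨_, h, hT' _ le_rfl⟩

theorem st_PRT : _root_.REC.ST_PRT := by
  intro F _ _ B B' N hN G _ _ cl hcl g
  obtain ⟨J, hJ, hJg⟩ := hcl.sur g⁻¹
  set C : Finset (Pl F) := B' \ B with hC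
  set K : Ideal (𝓞 F) := ∏ v ∈ C, v.asIdeal with hK
  set D : Ideal (𝓞 F) := ∏ v ∈ B, v.asIdeal ^ N with hD
  have hJ0 : J ≠ 0 := hJ.1
  have hK0 : K ≠ 0 := Finset.prod_ne_zero_iff.2 fun v _ => v.ne_bot
  have hD0 : D ≠ 0 := Finset.prod_ne_zero_iff.2 fun v _ => pow_ne_zero _ v.ne_bot
  obtain ⟨a, ha⟩ := IsDedekindDomain.exists_sup_span_eq (I := J * K) (J := J) Ideal.mul_le_left
    (mul_ne_zero hJ0 hK0)
  have haJ : a ∈ J := by
    rw [← ha]; exact Ideal.mem_sup_right (Ideal.mem_span_singleton_self a)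
  have hcop : IsCoprime (J * K) D := by
    rw [hD]
    refine IsCoprime.prod_right fun v hv => IsCoprime.pow_right (IsCoprime.mul_left ?_ ?_)
    · rw [Ideal.isCoprime_iff_sup_eq]
      have hmax : v.asIdeal.IsMaximal := v.isMaximal
      have h1 : ¬ J ≤ v.asIdeal := hJ.2 v hv
      by_contra hne
      have h2 := hmax.eq_of_le hne (le_sup_right : v.asIdeal ≤ J ⊔ v.asIdeal)
      exact h1 (le_sup_left.trans h2.ge)
    · rw [hK]
      refine IsCoprime.prod_left fun w hw => ?_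
      rw [Ideal.isCoprime_iff_sup_eq]
      refine Ideal.IsMaximal.coprime_of_ne w.isMaximal v.isMaximal ?_
      intro h
      have : w = v := IsDedekindDomain.HeightOneSpectrum.ext h
      rw [this] at hw
      exact (Finset.mem_sdiff.1 hw).2 hv
  obtain ⟨p, hp, d, hd, hpd⟩ := Ideal.isCoprime_iff_exists.1 hcop
  set n : ℕ := Ideal.absNorm (J * K * D) with hn
  have hn0 : n ≠ 0 := Ideal.absNorm_eq_zero_iff.not.2 (mul_ne_zero (mul_ne_zero hJ0 hK0) hD0)
  have hnm : (n : 𝓞 F) ∈ J * K * D := Ideal.absNorm_mem _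
  obtain ⟨t, hy0, hyp⟩ := exists_add_totPos (a * d + p) n hn0
  set y : 𝓞 F := a * d + p + t * (n : 𝓞 F) with hy
  have hyJ : y ∈ J := by
    refine Ideal.add_mem _ (Ideal.add_mem _ (Ideal.mul_mem_right _ _ haJ) ?_) ?_
    · exact Ideal.mul_le_left hp
    · exact Ideal.mul_mem_left _ _ (Ideal.mul_le_left (Ideal.mul_le_left hnm))
  have hya : y - a ∈ J * K := by
    have : y - a = -(a * p) + p + t * (n : 𝓞 F) := by
      have : d = 1 - p := by rw [← hpd]; ring
      rw [hy, this]; ring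
    rw [this]
    refine Ideal.add_mem _ (Ideal.add_mem _ (neg_mem (Ideal.mul_mem_left _ _ hp)) hp) ?_
    exact Ideal.mul_mem_left _ _ (Ideal.mul_le_left hnm)
  have hyD : y - 1 ∈ D := by
    have : y - 1 = a * d - d + t * (n : 𝓞 F) := by
      rw [hy, ← hpd]; ring
    rw [this]
    refine Ideal.add_mem _ (Ideal.sub_mem _ (Ideal.mul_mem_left _ _ hd) hd) ?_
    exact Ideal.mul_mem_left _ _ (Ideal.mul_le_right hnm)
  have hyB : ∀ v ∈ B, y - 1 ∈ v.asIdeal ^ N := by
    intro v hv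
    have : D ≤ v.asIdeal ^ N := by
      rw [← Ideal.dvd_iff_le]
      exact Finset.dvd_prod_of_mem (fun v : Pl F => v.asIdeal ^ N) hv
    exact this hyD
  have hray : _root_.REC.Ray B N y := ⟨hy0, hyp, hyB⟩
  obtain ⟨I, hI⟩ := Ideal.dvd_iff_le.2 ((Ideal.span_singleton_le_iff_mem J).2 hyJ)
  have hI0 : I ≠ ⊥ := by
    rintro rfl
    rw [Ideal.mul_bot, Ideal.span_singleton_eq_bot] at hI
    exact hy0 hI
  have hyI : y ∈ J * I := by rw [← hI]; exact Ideal.mem_span_singleton_self y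
  have hcB : _root_.REC.Cop B I := by
    refine ⟨hI0, fun v hv hIv => ?_⟩
    have h1 : y ∈ v.asIdeal := hIv (Ideal.mul_le_right hyI)
    have h2 : y - 1 ∈ v.asIdeal := Ideal.pow_le_self hN.ne' (hyB v hv)
    have h3 : (1 : 𝓞 F) ∈ v.asIdeal := by
      have := Ideal.sub_mem _ h1 h2
      simpa using this
    exact v.isPrime.ne_top ((Ideal.eq_top_iff_one _).2 h3)
  refine ⟨I, hcB, ⟨hI0, fun v hv hIv => ?_⟩, ?_⟩
  · by_cases hvB : v ∈ B
    · exact hcB.2 v hvB hIv
    · have hvC : v ∈ C := Finset.mem_sdiff.2 ⟨hv, hvB⟩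
      have h1 : y ∈ J * v.asIdeal := Ideal.mul_mono_right hIv hyI
      have h2 : K ≤ v.asIdeal := by
        rw [← Ideal.dvd_iff_le]
        exact Finset.dvd_prod_of_mem (fun v : Pl F => v.asIdeal) hvC
      have h3 : a ∈ J * v.asIdeal := by
        have := Ideal.sub_mem _ h1 (Ideal.mul_mono_right h2 hya)
        simpa using this
      have h4 : J ≤ J * v.asIdeal := by
        conv_lhs => rw [← ha]
        exact sup_le (Ideal.mul_mono_right h2) ((Ideal.span_singleton_le_iff_mem _).2 h3)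
      have h5 : J * v.asIdeal = J * 1 := by
        rw [mul_one]; exact le_antisymm Ideal.mul_le_left h4
      have h6 := mul_left_cancel₀ hJ0 h5
      exact v.isPrime.ne_top (by rw [h6, Ideal.one_eq_top])
  · have h1 := hcl.mul J I hJ hcB
    rw [← hI, hcl.ray y hray, hJg] at h1
    exact (inv_mul_eq_one.1 h1.symm).symm

end Pool.Agent.Helper48.REC
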