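import Pool.Agent.Helper85.REC.Stmts11

/-!
# REC, TFR: eigenvalues of matrices congruent to `1`
-/

set_option autoImplicit false

open scoped Classical
open NumberField

namespace REC

open MU

section

variable {l : ℕ} [Fact l.Prime] {n : ℕ}

/-- the eigenvalues of `A = 1 + l ^ 2 C` -/
lemma tfr_root (A C : Matrix (Fin n) (Fin n) ℤ_[l]) (hA : A = 1 + (l : ℤ_[l]) ^ 2 • C)
    (a : AlgebraicClosure ℚ_[l])
    (ha : a ∈ (A.map (algebraMap ℤ_[l] ℚ_[l])).charpoly.aroots (AlgebraicClosure ℚ_[l])) :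
    Polynomial.aeval a A.charpoly = 0 ∧
      ∃ c : AlgebraicClosure ℚ_[l], IsIntegral ℤ_[l] c ∧ a = 1 + (l : AlgebraicClosure ℚ_[l]) ^ 2 * c := by
  set g : ℤ_[l] →+* AlgebraicClosure ℚ_[l] := algebraMap ℤ_[l] (AlgebraicClosure ℚ_[l]) with hg
  have hl : (l : AlgebraicClosure ℚ_[l]) ≠ 0 := by
    rw [Nat.cast_ne_zero]
    exact (Fact.out : l.Prime).ne_zero
  have h1 : Polynomial.aeval a A.charpoly = 0 := by
    rw [Polynomial.mem_aroots] at ha
    have h2 := ha.2
    rw [Matrix.charpoly_map, Polynomial.aeval_map_algebraMap] at h2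
    exact h2
  refine ⟨h1, (a - 1) / (l : AlgebraicClosure ℚ_[l]) ^ 2, ?_, by field_simp; ring⟩
  set c := (a - 1) / (l : AlgebraicClosure ℚ_[l]) ^ 2 with hc
  have hac : a = 1 + (l : AlgebraicClosure ℚ_[l]) ^ 2 * c := by rw [hc]; field_simp; ring
  have h3 : (Matrix.scalar (Fin n) a - A.map g).det = 0 := by
    rw [← Matrix.eval_charpoly, Matrix.charpoly_map, Polynomial.eval_map, ← Polynomial.aeval_def]
    exact h1
  have h4 : Matrix.scalar (Fin n) a - A.map g =
      (l : AlgebraicClosure ℚ_[l]) ^ 2 • (Matrix.scalar (Fin n) c - C.map g) := by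
    rw [hA]
    ext i j
    rw [Matrix.sub_apply, Matrix.map_apply, Matrix.add_apply, Matrix.smul_apply, Matrix.smul_apply,
      Matrix.sub_apply, Matrix.map_apply, map_add, smul_eq_mul, map_mul, map_pow, map_natCast]
    by_cases hij : i = j
    · subst hij
      simp only [Matrix.scalar_apply, Matrix.diagonal_apply_eq, Matrix.one_apply_eq, map_one,
        smul_eq_mul]
      rw [hac]
      ring
    · simp only [Matrix.scalar_apply, Matrix.diagonal_apply_ne _ hij, Matrix.one_apply_ne hij,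
        map_zero, smul_eq_mul]
      ring
  rw [h4, Matrix.det_smul] at h3
  have h5 : (Matrix.scalar (Fin n) c - C.map g).det = 0 := by
    rcases mul_eq_zero.1 h3 with h | h
    · exact absurd h (pow_ne_zero _ (pow_ne_zero _ hl))
    · exact h
  refine ⟨C.charpoly, C.charpoly_monic, ?_⟩
  rw [← Matrix.eval_charpoly, Matrix.charpoly_map, Polynomial.eval_map] at h5
  exact h5

lemma tfr_unit (A C : Matrix (Fin n) (Fin n) ℤ_[l]) (hA : A = 1 + (l : ℤ_[l]) ^ 2 • C) :
    IsUnit A.det := by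
  by_contra h
  have h1 : A.det ∈ IsLocalRing.maximalIdeal ℤ_[l] := h
  rw [← PadicInt.ker_toZMod, RingHom.mem_ker, RingHom.map_det, RingHom.mapMatrix_apply] at h1
  have h2 : A.map (PadicInt.toZMod (p := l)) = 1 := by
    rw [hA]
    ext i j
    rw [Matrix.map_apply, Matrix.add_apply, Matrix.smul_apply, map_add, smul_eq_mul, map_mul,
      map_pow, map_natCast]
    have h3 : ((l : ℕ) : ZMod l) = 0 := ZMod.natCast_self l
    rw [h3]
    by_cases hij : i = j
    · subst hij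
      simp
    · simp [Matrix.one_apply_ne hij]
  rw [h2, Matrix.det_one] at h1
  exact one_ne_zero h1

lemma tfr_inv (A C : Matrix (Fin n) (Fin n) ℤ_[l]) (hA : A = 1 + (l : ℤ_[l]) ^ 2 • C)
    (b : AlgebraicClosure ℚ_[l]) (hb : Polynomial.aeval b A.charpoly = 0) :
    ∃ b' : AlgebraicClosure ℚ_[l], IsIntegral ℤ_[l] b' ∧ b * b' = 1 := by
  have hu : IsUnit (A.charpoly.coeff 0) := by
    have h1 := tfr_unit A C hA
    rw [Matrix.det_eq_sign_charpoly_coeff] at h1
    exact isUnit_of_mul_isUnit_right h1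
  obtain ⟨v, hv⟩ := hu.exists_right_inv
  have hbi : IsIntegral ℤ_[l] b := ⟨A.charpoly, A.charpoly_monic, hb⟩
  refine ⟨-(algebraMap ℤ_[l] (AlgebraicClosure ℚ_[l]) v * Polynomial.aeval b A.charpoly.divX),
    ?_, ?_⟩
  · refine IsIntegral.neg (IsIntegral.mul isIntegral_algebraMap ?_)
    exact IsIntegral.of_mem_of_fg (Algebra.adjoin ℤ_[l] {b}) hbi.fg_adjoin_singleton _
      (Polynomial.aeval_mem_adjoin_singleton _ _)
  · have h2 := hb
    rw [← Polynomial.divX_mul_X_add A.charpoly, map_add, map_mul, Polynomial.aeval_X,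
      Polynomial.aeval_C] at h2
    have h3 : algebraMap ℤ_[l] (AlgebraicClosure ℚ_[l]) (A.charpoly.coeff 0) *
        algebraMap ℤ_[l] (AlgebraicClosure ℚ_[l]) v = 1 := by
      rw [← map_mul, hv, map_one]
    linear_combination (-algebraMap ℤ_[l] (AlgebraicClosure ℚ_[l]) v) * h2 + h3

/-- roots of unity near `1` -/
lemma tfr_one (z e : AlgebraicClosure ℚ_[l]) (he : IsIntegral ℤ_[l] e)
    (hz : z = 1 + (l : AlgebraicClosure ℚ_[l]) ^ 2 * e) (q : ℕ) (hq : q.Prime) (hzq : z ^ q = 1) :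
    z = 1 := by
  by_contra hne
  have hlp : l.Prime := Fact.out
  have hl : (l : AlgebraicClosure ℚ_[l]) ≠ 0 := by
    rw [Nat.cast_ne_zero]
    exact hlp.ne_zero
  have hzi : IsIntegral ℤ_[l] z := by
    rw [hz]
    refine IsIntegral.add isIntegral_one (IsIntegral.mul (IsIntegral.pow ?_ _) he)
    have h1 : (l : AlgebraicClosure ℚ_[l]) = algebraMap ℤ_[l] (AlgebraicClosure ℚ_[l]) l := by
      rw [map_natCast]
    rw [h1]
    exact isIntegral_algebraMap
  have hgeom : ∑ i ∈ Finset.range q, z ^ i = 0 := by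
    have h1 := mul_geom_sum z q
    rw [hzq, sub_self] at h1
    rcases mul_eq_zero.1 h1 with h | h
    · exact absurd (sub_eq_zero.1 h) hne
    · exact h
  -- `q = l ^ 2 * E`
  have hE : (q : AlgebraicClosure ℚ_[l]) = (l : AlgebraicClosure ℚ_[l]) ^ 2 *
      (-∑ i ∈ Finset.range q, e * ∑ j ∈ Finset.range i, z ^ j) := by
    have h1 : ∀ i ∈ Finset.range q, (l : AlgebraicClosure ℚ_[l]) ^ 2 *
        (e * ∑ j ∈ Finset.range i, z ^ j) = z ^ i - 1 := by
      intro i _
      have h2 := mul_geom_sum z i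
      rw [← h2]
      rw [hz]
      ring
    rw [mul_neg, Finset.mul_sum, Finset.sum_congr rfl h1, Finset.sum_sub_distrib, hgeom]
    simp
  set E := -∑ i ∈ Finset.range q, e * ∑ j ∈ Finset.range i, z ^ j with hEd
  have hEi : IsIntegral ℤ_[l] E := by
    rw [hEd]
    refine IsIntegral.neg (IsIntegral.sum _ fun i _ => IsIntegral.mul he
      (IsIntegral.sum _ fun j _ => hzi.pow j))
  have hE2 : E = algebraMap ℚ_[l] (AlgebraicClosure ℚ_[l]) ((q : ℚ_[l]) / (l : ℚ_[l]) ^ 2) := by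
    rw [map_div₀, map_pow, map_natCast, map_natCast]
    field_simp
    rw [hE]
    ring
  rw [hE2] at hEi
  have hEi2 : IsIntegral ℤ_[l] ((q : ℚ_[l]) / (l : ℚ_[l]) ^ 2) :=
    (isIntegral_algebraMap_iff (algebraMap ℚ_[l] (AlgebraicClosure ℚ_[l])).injective).1 hEi
  obtain ⟨y, hy⟩ := IsIntegrallyClosed.isIntegral_iff.1 hEi2
  have hl' : (l : ℚ_[l]) ≠ 0 := by
    rw [Nat.cast_ne_zero]
    exact hlp.ne_zero
  have h6 : (l : ℤ_[l]) ^ 2 ∣ ((q : ℤ) : ℤ_[l]) := by
    refine ⟨y, ?_⟩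
    apply IsFractionRing.injective ℤ_[l] ℚ_[l]
    rw [map_mul, hy, map_pow, map_natCast, map_intCast, Int.cast_natCast]
    field_simp
  rw [PadicInt.pow_p_dvd_int_iff] at h6
  have h7 : l ^ 2 ∣ q := by exact_mod_cast h6
  have h8 : l ∣ q := (dvd_pow_self l two_ne_zero).trans h7
  have h9 : l = q := (Nat.prime_dvd_prime_iff_eq hlp hq).1 h8
  rw [← h9] at h7
  have h10 := Nat.le_of_dvd hlp.pos h7
  have h11 := hlp.two_le
  nlinarith

end

theorem st_TFR : ST_TFR := by
  intro n l _ A C hA a ha b hb N hN hab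
  obtain ⟨ha0, c, hc, hac⟩ := tfr_root A C hA a ha
  obtain ⟨hb0, c', hc', hbc⟩ := tfr_root A C hA b hb
  obtain ⟨b', hb', hbb⟩ := tfr_inv A C hA b hb0
  have hbne : b ≠ 0 := left_ne_zero_of_mul_eq_one hbb
  have hai : IsIntegral ℤ_[l] a := ⟨A.charpoly, A.charpoly_monic, ha0⟩
  set z := a * b' with hz
  have hzN : z ^ N = 1 := by
    rw [hz, mul_pow, hab, ← mul_pow, hbb, one_pow]
  have hzi : IsIntegral ℤ_[l] z := hai.mul hb'
  have hz1 : z = 1 + (l : AlgebraicClosure ℚ_[l]) ^ 2 * ((c - c') * b') := by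
    rw [hz]
    linear_combination hbb + b' * hac - b' * hbc
  suffices hz2 : z = 1 by
    have h1 : a * b' * b = b := by rw [← hz, hz2, one_mul]
    rw [mul_assoc, mul_comm b' b, hbb, mul_one] at h1
    exact h1
  by_contra hne
  have hfin : IsOfFinOrder z := isOfFinOrder_iff_pow_eq_one.2 ⟨N, hN, hzN⟩
  have hd0 : 0 < orderOf z := hfin.orderOf_pos
  have hd1 : orderOf z ≠ 1 := fun h => hne (orderOf_eq_one_iff.1 h)
  obtain ⟨q, hq, hqd⟩ := Nat.exists_prime_and_dvd hd1
  obtain ⟨k, hk⟩ := hqd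
  have hk0 : k ≠ 0 := by
    rintro rfl
    rw [mul_zero] at hk
    omega
  have h2 : z ^ k ≠ 1 := by
    intro h
    have h3 := Nat.le_of_dvd (Nat.pos_of_ne_zero hk0) (orderOf_dvd_of_pow_eq_one h)
    rw [hk] at h3
    have h4 := hq.two_le
    have h5 := Nat.pos_of_ne_zero hk0
    nlinarith
  apply h2
  refine tfr_one (z ^ k) (((c - c') * b') * ∑ j ∈ Finset.range k, z ^ j) ?_ ?_ q hq ?_
  · exact ((hc.sub hc').mul hb').mul (IsIntegral.sum _ fun j _ => hzi.pow j)
  · have h3 := mul_geom_sum z k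
    have h4 : z - 1 = (l : AlgebraicClosure ℚ_[l]) ^ 2 * ((c - c') * b') := by
      rw [hz1]
      ring
    rw [h4] at h3
    linear_combination (-1 : AlgebraicClosure ℚ_[l]) * h3
  · rw [← pow_mul, mul_comm k q, ← hk]
    exact pow_orderOf_eq_one z

end REC
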