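import Pool.Agent.Helper57.REC.StmtsX

/-!
# REC, XDC: endomorphisms of a direct sum
-/

set_option autoImplicit false

open scoped Classical

namespace REC

open MU

theorem xdc_Q {G K : Type} [Group G] [Field K] {n k : ℕ} {m : Fin k → ℕ}
    {r : G →* Matrix (Fin n) (Fin n) K} {s : ∀ i, G →* Matrix (Fin (m i)) (Fin (m i)) K}
    {P : ∀ i, Matrix (Fin (m i)) (Fin n) K} {Q : ∀ i, Matrix (Fin n) (Fin (m i)) K}
    (h1 : ∀ i, P i * Q i = 1) (h2 : ∀ i j, i ≠ j → P i * Q j = 0) (h3 : ∑ i, Q i * P i = 1)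
    (h4 : ∀ i g, P i * r g = s i g * P i) (i : Fin k) (g : G) : r g * Q i = Q i * s i g := by
  have h5 : r g * Q i = (∑ j, Q j * P j) * (r g * Q i) := by rw [h3, Matrix.one_mul]
  rw [h5, Matrix.sum_mul, Finset.sum_eq_single i]
  · rw [Matrix.mul_assoc, ← Matrix.mul_assoc (P i), h4, Matrix.mul_assoc, h1, Matrix.mul_one]
  · intro j _ hj
    rw [Matrix.mul_assoc, ← Matrix.mul_assoc (P j), h4, Matrix.mul_assoc (s j g), h2 j i hj,
      Matrix.mul_zero, Matrix.mul_zero]
  · intro h
    exact absurd (Finset.mem_univ i) h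

theorem xdc_mid {K : Type} [Field K] {n k : ℕ} {m : Fin k → ℕ}
    {P : ∀ i, Matrix (Fin (m i)) (Fin n) K} {Q : ∀ i, Matrix (Fin n) (Fin (m i)) K}
    (h1 : ∀ i, P i * Q i = 1) (h2 : ∀ i j, i ≠ j → P i * Q j = 0)
    (f : ∀ i j : Fin k, Matrix (Fin (m j)) (Fin (m i)) K) (i j : Fin k) :
    P j * (∑ i', ∑ j', Q j' * f i' j' * P i') * Q i = f i j := by
  rw [Matrix.mul_sum, Matrix.sum_mul, Finset.sum_eq_single i]
  · rw [Matrix.mul_sum, Matrix.sum_mul, Finset.sum_eq_single j]
    · rw [Matrix.mul_assoc (Q j), ← Matrix.mul_assoc (P j), h1, Matrix.one_mul, Matrix.mul_assoc,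
        h1, Matrix.mul_one]
    · intro j' _ hj'
      rw [Matrix.mul_assoc (Q j'), ← Matrix.mul_assoc (P j), h2 j j' (Ne.symm hj'),
        Matrix.zero_mul, Matrix.zero_mul]
    · intro h
      exact absurd (Finset.mem_univ j) h
  · intro i' _ hi'
    rw [Matrix.mul_sum, Matrix.sum_mul]
    apply Finset.sum_eq_zero
    intro j' _
    rw [Matrix.mul_assoc (P j), Matrix.mul_assoc (Q j' * f i' j'), h2 i' i hi', Matrix.mul_zero,
      Matrix.mul_zero]
  · intro h
    exact absurd (Finset.mem_univ i) h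

theorem xdc_sum {K : Type} [Field K] {n k : ℕ} {m : Fin k → ℕ}
    {P : ∀ i, Matrix (Fin (m i)) (Fin n) K} {Q : ∀ i, Matrix (Fin n) (Fin (m i)) K}
    (h3 : ∑ i, Q i * P i = 1) (u : Matrix (Fin n) (Fin n) K) :
    ∑ i, ∑ j, Q j * (P j * u * Q i) * P i = u := by
  have h4 : ∀ i, ∑ j, Q j * (P j * u * Q i) * P i = u * (Q i * P i) := by
    intro i
    have h5 : ∀ j, Q j * (P j * u * Q i) * P i = (Q j * P j) * (u * (Q i * P i)) := fun j => by
      simp only [Matrix.mul_assoc]
    rw [Finset.sum_congr rfl (fun j _ => h5 j), ← Finset.sum_mul, h3, Matrix.one_mul]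
  rw [Finset.sum_congr rfl (fun i _ => h4 i), ← Finset.mul_sum, h3, Matrix.mul_one]

theorem st_XDC : ST_XDC := by
  intro G K _ _ n k m r s P Q h1 h2 h3 h4
  have hQ := xdc_Q h1 h2 h3 h4
  let e : Hmk r r ≃ₗ[K] (∀ i j, Hmk (s i) (s j)) :=
    { toFun := fun u i j => ⟨P j * u.1 * Q i, fun g => by
        rw [Matrix.mul_assoc, ← hQ i g, ← Matrix.mul_assoc, Matrix.mul_assoc (P j), u.2 g,
          ← Matrix.mul_assoc (P j), h4, Matrix.mul_assoc, Matrix.mul_assoc, Matrix.mul_assoc]⟩
      map_add' := fun u v => by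
        funext i j
        apply Subtype.ext
        change P j * (u.1 + v.1) * Q i = P j * u.1 * Q i + P j * v.1 * Q i
        rw [Matrix.mul_add, Matrix.add_mul]
      map_smul' := fun c u => by
        funext i j
        apply Subtype.ext
        change P j * (c • u.1) * Q i = c • (P j * u.1 * Q i)
        rw [Matrix.mul_smul, Matrix.smul_mul]
      invFun := fun f => ⟨∑ i, ∑ j, Q j * (f i j).1 * P i, fun g => by
        rw [Finset.sum_mul, Finset.mul_sum]
        apply Finset.sum_congr rfl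
        intro i _
        rw [Finset.sum_mul, Finset.mul_sum]
        apply Finset.sum_congr rfl
        intro j _
        rw [Matrix.mul_assoc, h4, ← Matrix.mul_assoc, Matrix.mul_assoc (Q j), (f i j).2 g,
          ← Matrix.mul_assoc (Q j), ← hQ j g, Matrix.mul_assoc, Matrix.mul_assoc,
          Matrix.mul_assoc]⟩
      left_inv := fun u => by
        apply Subtype.ext
        exact xdc_sum h3 u.1
      right_inv := fun f => by
        funext i j
        apply Subtype.ext
        exact xdc_mid h1 h2 (fun i j => (f i j).1) i j }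
  rw [LinearEquiv.finrank_eq e, Module.finrank_pi_fintype]
  apply Finset.sum_congr rfl
  intro i _
  rw [Module.finrank_pi_fintype]

end REC
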