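import Pool.Agent.Helper57.REC.StmtsX

/-!
# REC, XDS: homomorphisms and complete reducibility over a larger field
-/

set_option autoImplicit false

open scoped Classical

namespace REC

open MU

section

variable {K Ω : Type} [Field K] [Field Ω] [Algebra K Ω]

/-- a linear form commutes with products with matrices over the small field (on the right) -/
theorem xds_right {n m k : ℕ} (φ : Ω →ₗ[K] K) (u : Matrix (Fin m) (Fin n) Ω)
    (a : Matrix (Fin n) (Fin k) K) :
    (u * a.map (algebraMap K Ω)).map φ = u.map φ * a := by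
  ext i j
  simp only [Matrix.map_apply, Matrix.mul_apply, map_sum]
  apply Finset.sum_congr rfl
  intro x _
  rw [mul_comm, ← Algebra.smul_def, map_smul, smul_eq_mul, mul_comm]

/-- a linear form commutes with products with matrices over the small field (on the left) -/
theorem xds_left {n m k : ℕ} (φ : Ω →ₗ[K] K) (u : Matrix (Fin n) (Fin k) Ω)
    (a : Matrix (Fin m) (Fin n) K) :
    (a.map (algebraMap K Ω) * u).map φ = a * u.map φ := by
  ext i j
  simp only [Matrix.map_apply, Matrix.mul_apply, map_sum]
  apply Finset.sum_congr rfl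
  intro x _
  rw [← Algebra.smul_def, map_smul, smul_eq_mul]

theorem xds_finrank {G : Type} [Group G] {n m : ℕ} (r : G →* Matrix (Fin n) (Fin n) K)
    (s : G →* Matrix (Fin m) (Fin m) K) :
    Module.finrank Ω (Hmk (mapk (algebraMap K Ω) r) (mapk (algebraMap K Ω) s)) =
      Module.finrank K (Hmk r s) := by
  have hr : ∀ g, mapk (algebraMap K Ω) r g = (r g).map (algebraMap K Ω) := fun g => rfl
  have hs : ∀ g, mapk (algebraMap K Ω) s g = (s g).map (algebraMap K Ω) := fun g => rfl
  let b := Module.finBasis K (Hmk r s)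
  -- left inverse
  let i0 : (Fin (Module.finrank K (Hmk r s)) → K) →ₗ[K] Matrix (Fin m) (Fin n) K :=
    (Hmk r s).subtype.comp b.equivFun.symm.toLinearMap
  have hi0 : LinearMap.ker i0 = ⊥ := LinearMap.ker_eq_bot.mpr
    ((Submodule.injective_subtype _).comp b.equivFun.symm.injective)
  obtain ⟨f, hf⟩ := LinearMap.exists_leftInverse_of_injective i0 hi0
  have hfb : ∀ i, f (b i).1 = Pi.single i 1 := by
    intro i
    have h1 := LinearMap.congr_fun hf (Pi.single i 1)
    rw [LinearMap.comp_apply, LinearMap.id_apply] at h1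
    have h2 : i0 (Pi.single i 1) = (b i).1 := by
      change (b.equivFun.symm (Pi.single i 1)).1 = (b i).1
      congr 1
      rw [Module.Basis.equivFun_symm_apply, Finset.sum_eq_single i]
      · rw [Pi.single_eq_same, one_smul]
      · intro j _ hj
        rw [Pi.single_eq_of_ne hj, zero_smul]
      · intro h
        exact absurd (Finset.mem_univ i) h
    rw [h2] at h1
    exact h1
  -- the matrix of f
  let Fm : Fin (Module.finrank K (Hmk r s)) → Fin m → Fin n → K :=
    fun i x y => f (Matrix.single x y 1) i
  have hFm : ∀ (u : Matrix (Fin m) (Fin n) K) i, f u i = ∑ x, ∑ y, Fm i x y * u x y := by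
    intro u i
    conv_lhs => rw [Matrix.matrix_eq_sum_single u]
    rw [map_sum, Finset.sum_apply]
    apply Finset.sum_congr rfl
    intro x _
    rw [map_sum, Finset.sum_apply]
    apply Finset.sum_congr rfl
    intro y _
    have : Matrix.single x y (u x y) = u x y • Matrix.single x y (1 : K) := by
      rw [Matrix.smul_single, smul_eq_mul, mul_one]
    rw [this, map_smul, Pi.smul_apply, smul_eq_mul, mul_comm]
  let f' : Matrix (Fin m) (Fin n) Ω → Fin (Module.finrank K (Hmk r s)) → Ω :=
    fun u i => ∑ x, ∑ y, algebraMap K Ω (Fm i x y) * u x y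
  have hsep : ∀ a c : Ω, (∀ φ : Ω →ₗ[K] K, φ a = φ c) → a = c := by
    intro a c h
    rw [← sub_eq_zero]
    apply (Module.forall_dual_apply_eq_zero_iff K _).1
    intro φ
    rw [map_sub, sub_eq_zero]
    exact h φ
  have hphi : ∀ (φ : Ω →ₗ[K] K) (u : Matrix (Fin m) (Fin n) Ω) i, φ (f' u i) = f (u.map φ) i := by
    intro φ u i
    rw [hFm]
    simp only [f', map_sum, Matrix.map_apply]
    apply Finset.sum_congr rfl
    intro x _
    apply Finset.sum_congr rfl
    intro y _
    rw [← Algebra.smul_def, map_smul, smul_eq_mul]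
  let b' : Fin (Module.finrank K (Hmk r s)) →
      Hmk (mapk (algebraMap K Ω) r) (mapk (algebraMap K Ω) s) :=
    fun i => ⟨(b i).1.map (algebraMap K Ω), fun g => by
      rw [hr, hs, ← Matrix.map_mul, ← Matrix.map_mul, (b i).2 g]⟩
  have hlin : LinearIndependent Ω b' := by
    rw [Fintype.linearIndependent_iff]
    intro c hc i
    have h1 : ∀ x y, ∑ j, c j * algebraMap K Ω ((b j).1 x y) = 0 := by
      intro x y
      have h2 := congrFun (congrFun (congrArg Subtype.val hc) x) y
      rw [Submodule.coe_sum] at h2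
      simp only [Matrix.sum_apply, b', Submodule.coe_smul, Matrix.smul_apply, smul_eq_mul,
        Matrix.map_apply] at h2
      exact h2
    have h3 : ∑ x, ∑ y, algebraMap K Ω (Fm i x y) *
        ∑ j, c j * algebraMap K Ω ((b j).1 x y) = 0 := by
      apply Finset.sum_eq_zero
      intro x _
      apply Finset.sum_eq_zero
      intro y _
      rw [h1, mul_zero]
    have h4 : ∑ x, ∑ y, algebraMap K Ω (Fm i x y) *
        ∑ j, c j * algebraMap K Ω ((b j).1 x y) = ∑ j, c j * algebraMap K Ω (f (b j).1 i) := by
      simp only [hFm, map_sum, map_mul, Finset.mul_sum]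
      rw [Finset.sum_comm' (t' := Finset.univ) (s' := fun _ => Finset.univ) (by simp)]
      have h5 : ∀ y : Fin n, ∑ x : Fin m, ∑ j, algebraMap K Ω (Fm i x y) *
          (c j * algebraMap K Ω ((b j).1 x y)) = ∑ j, ∑ x : Fin m, c j *
            (algebraMap K Ω (Fm i x y) * algebraMap K Ω ((b j).1 x y)) := by
        intro y
        rw [Finset.sum_comm]
        apply Finset.sum_congr rfl
        intro j _
        apply Finset.sum_congr rfl
        intro x _
        ring
      rw [Finset.sum_congr rfl (fun y _ => h5 y), Finset.sum_comm]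
      apply Finset.sum_congr rfl
      intro j _
      rw [Finset.sum_comm]
    rw [h4, Finset.sum_eq_single i] at h3
    · rw [hfb, Pi.single_eq_same, map_one, mul_one] at h3
      exact h3
    · intro j _ hj
      rw [hfb, Pi.single_eq_of_ne hj.symm, map_zero, mul_zero]
    · intro h
      exact absurd (Finset.mem_univ i) h
  have hspan : ⊤ ≤ Submodule.span Ω (Set.range b') := by
    rintro ⟨u, hu⟩ -
    have h1 : ∀ φ : Ω →ₗ[K] K, u.map φ ∈ Hmk r s := by
      intro φ g
      have h2 := hu g
      rw [hr, hs] at h2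
      rw [← xds_right φ u (r g), h2, xds_left]
    have h2 : (⟨u, hu⟩ : Hmk (mapk (algebraMap K Ω) r) (mapk (algebraMap K Ω) s)) =
        ∑ i, f' u i • b' i := by
      apply Subtype.ext
      ext x y
      rw [Submodule.coe_sum]
      simp only [Matrix.sum_apply, b', Submodule.coe_smul, Matrix.smul_apply, smul_eq_mul,
        Matrix.map_apply]
      apply hsep
      intro φ
      have h3 : (⟨u.map φ, h1 φ⟩ : Hmk r s) = ∑ i, f (u.map φ) i • b i := by
        have h4 := b.sum_equivFun (⟨u.map φ, h1 φ⟩ : Hmk r s)
        rw [← h4]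
        have h5 : (b.equivFun ⟨u.map φ, h1 φ⟩) = f (u.map φ) := by
          have h6 := LinearMap.congr_fun hf (b.equivFun ⟨u.map φ, h1 φ⟩)
          rw [LinearMap.comp_apply, LinearMap.id_apply] at h6
          rw [← h6]
          congr 1
          change (b.equivFun.symm (b.equivFun ⟨u.map φ, h1 φ⟩)).1 = u.map φ
          rw [LinearEquiv.symm_apply_apply]
        rw [h4, ← h5, h4]
      have h7 := congrFun (congrFun (congrArg Subtype.val h3) x) y
      rw [Submodule.coe_sum] at h7
      simp only [Matrix.sum_apply, Submodule.coe_smul, Matrix.smul_apply, smul_eq_mul,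
        Matrix.map_apply] at h7
      rw [h7, map_sum]
      apply Finset.sum_congr rfl
      intro i _
      rw [mul_comm (f' u i), ← Algebra.smul_def, map_smul, smul_eq_mul, mul_comm, hphi]
    rw [h2]
    apply Submodule.sum_mem
    intro i _
    exact Submodule.smul_mem _ _ (Submodule.subset_span ⟨i, rfl⟩)
  let B := Module.Basis.mk hlin hspan
  rw [Module.finrank_eq_card_basis B, Fintype.card_fin]

theorem xds_ss {G : Type} [Group G] {n : ℕ} (r : G →* Matrix (Fin n) (Fin n) K)
    (h : IsSS (mapk (algebraMap K Ω) r)) : IsSS r := by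
  intro m B A hBA
  obtain ⟨⟨C, hC⟩, hA⟩ := hBA
  obtain ⟨C', hC1, hC2⟩ := h m (B.map (algebraMap K Ω)) (fun g => (A g).map (algebraMap K Ω))
    ⟨⟨C.map (algebraMap K Ω), by
      rw [← Matrix.map_mul, hC, Matrix.map_one _ (map_zero _) (map_one _)]⟩, fun g => by
      change (r g).map (algebraMap K Ω) * B.map (algebraMap K Ω) =
        B.map (algebraMap K Ω) * (A g).map (algebraMap K Ω)
      rw [← Matrix.map_mul, hA, Matrix.map_mul]⟩
  obtain ⟨φ, hφ⟩ := LinearMap.exists_leftInverse_of_injective (Algebra.linearMap K Ω)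
    (LinearMap.ker_eq_bot.mpr (algebraMap K Ω).injective)
  have hφ1 : ∀ a : K, φ (algebraMap K Ω a) = a := fun a => LinearMap.congr_fun hφ a
  refine ⟨C'.map φ, ?_, fun g => ?_⟩
  · rw [← xds_right, hC1]
    ext i j
    rw [Matrix.map_apply, Matrix.one_apply, Matrix.one_apply]
    split_ifs with hij
    · rw [← map_one (algebraMap K Ω), hφ1]
    · exact map_zero φ
  · have h2 := hC2 g
    change C' * (r g).map (algebraMap K Ω) = (A g).map (algebraMap K Ω) * C' at h2
    rw [← xds_right, h2, xds_left]

end

theorem st_XDS : ST_XDS := by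
  intro G K Ω _ _ _ κ n m r s
  let _ : Algebra K Ω := κ.toAlgebra
  exact ⟨xds_finrank r s, xds_ss r⟩

end REC
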