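import Pool.Agent.Helper57.REC.StmtsX

/-!
# REC, XGL: Galois extensions of `ℚ` containing two number fields

`xgl_gal` is a copy of the lemma `ir_gal` of `Helper85/REC/IR2.lean`.
-/

set_option autoImplicit false

open scoped Classical
open NumberField Polynomial

namespace REC

/-- a Galois extension of `ℚ` which contains `F` -/
theorem xgl_gal (F : Type) [Field F] [NumberField F] : ∃ (L : Type) (_ : Field L)
    (_ : NumberField L) (_ : IsGalois ℚ L), Nonempty (F →+* L) := by
  have hAlg : Algebra.IsAlgebraic ℚ (AlgebraicClosure F) :=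
    Algebra.IsAlgebraic.trans ℚ F (AlgebraicClosure F)
  have hAC : IsAlgClosure ℚ (AlgebraicClosure F) := ⟨inferInstance, hAlg⟩
  have hNor : Normal ℚ (AlgebraicClosure F) := IsAlgClosure.normal ℚ (AlgebraicClosure F)
  let L := IntermediateField.normalClosure ℚ F (AlgebraicClosure F)
  have hfd : FiniteDimensional ℚ L := inferInstance
  have hch : CharZero L := inferInstance
  have hN : NumberField L := { to_charZero := hch, to_finiteDimensional := by convert hfd }
  have hn := normalClosure.normal ℚ F (AlgebraicClosure F)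
  refine ⟨L, inferInstance, hN, ?_, ⟨algebraMap F L⟩⟩
  have hn' : Normal ℚ L := by
    convert hn
    exact Subsingleton.elim _ _
  exact { }

theorem st_XGL : ST_XGL := by
  intro F L _ _ _ _
  let a : F →ₐ[ℚ] AlgebraicClosure ℚ := IsAlgClosed.lift
  let b : L →ₐ[ℚ] AlgebraicClosure ℚ := IsAlgClosed.lift
  let M : IntermediateField ℚ (AlgebraicClosure ℚ) := a.fieldRange ⊔ b.fieldRange
  have h1 : FiniteDimensional ℚ a.fieldRange :=
    LinearMap.finiteDimensional_range (K := ℚ) (V := F) (V₂ := AlgebraicClosure ℚ) a.toLinearMap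
  have h2 : FiniteDimensional ℚ b.fieldRange :=
    LinearMap.finiteDimensional_range (K := ℚ) (V := L) (V₂ := AlgebraicClosure ℚ) b.toLinearMap
  have h3 : FiniteDimensional ℚ M := IntermediateField.finiteDimensional_sup _ _
  have hM : NumberField M := { to_charZero := inferInstance, to_finiteDimensional := by convert h3 }
  obtain ⟨L', i1, i2, i3, ⟨f⟩⟩ := xgl_gal M
  let ja : F →+* M := (IntermediateField.inclusion (le_sup_left : a.fieldRange ≤ M)).toRingHom.comp
    a.rangeRestrict.toRingHom
  let jb : L →+* M := (IntermediateField.inclusion (le_sup_right : b.fieldRange ≤ M)).toRingHom.comp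
    b.rangeRestrict.toRingHom
  exact ⟨L', i1, i2, i3, ⟨f.comp jb⟩, ⟨f.comp ja⟩⟩

end REC
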