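import Pool.Agent.Helper57.REC.StmtsX

/-!
# REC, XLF: lifting endomorphisms by comparing dimensions
-/

set_option autoImplicit false

open scoped Classical

namespace REC

open MU

section

variable {G : Type} [Group G] {n l : ℕ} [Fact l.Prime]
  (r : G →* Matrix.GeneralLinearGroup (Fin n) ℤ_[l])

/-- the integral commutant -/
def xlfLa : Submodule ℤ_[l] (Matrix (Fin n) (Fin n) ℤ_[l]) where
  carrier := {x | ∀ g, x * (r g : Matrix (Fin n) (Fin n) ℤ_[l]) = r g * x}
  add_mem' := fun {a b} ha hb g => by rw [Matrix.add_mul, Matrix.mul_add, ha g, hb g]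
  zero_mem' := fun g => by rw [Matrix.zero_mul, Matrix.mul_zero]
  smul_mem' := fun c a ha g => by rw [Matrix.smul_mul, Matrix.mul_smul, ha g]

theorem xlf_rat (g : G) : rat r g =
    (r g : Matrix (Fin n) (Fin n) ℤ_[l]).map (algebraMap ℤ_[l] ℚ_[l]) := rfl

theorem xlf_res (g : G) : res r g =
    (r g : Matrix (Fin n) (Fin n) ℤ_[l]).map (PadicInt.toZMod (p := l)) := rfl

/-- the images in the rational commutant -/
noncomputable def xlfQ (x : xlfLa r) : Hmk (rat r) (rat r) :=
  ⟨x.1.map (algebraMap ℤ_[l] ℚ_[l]), fun g => by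
    rw [xlf_rat, ← Matrix.map_mul, ← Matrix.map_mul, x.2 g]⟩

/-- the images in the residual commutant -/
noncomputable def xlfR (x : xlfLa r) : Hmk (res r) (res r) :=
  ⟨x.1.map (PadicInt.toZMod (p := l)), fun g => by
    rw [xlf_res, ← Matrix.map_mul, ← Matrix.map_mul, x.2 g]⟩

theorem xlf_injm : Function.Injective
    (fun x : Matrix (Fin n) (Fin n) ℤ_[l] => x.map (algebraMap ℤ_[l] ℚ_[l])) :=
  Matrix.map_injective (IsFractionRing.injective ℤ_[l] ℚ_[l])

/-- every element of the rational commutant has a multiple in the integral one -/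
theorem xlf_den (u : Hmk (rat r) (rat r)) : ∃ (a : ℤ_[l]) (x : xlfLa r), a ≠ 0 ∧
    (algebraMap ℤ_[l] ℚ_[l] a) • u = xlfQ r x := by
  obtain ⟨a, ha⟩ := IsLocalization.exist_integer_multiples (nonZeroDivisors ℤ_[l])
    (Finset.univ : Finset (Fin n × Fin n)) (fun p => u.1 p.1 p.2)
  have h1 : ∀ i j, ∃ y : ℤ_[l], algebraMap ℤ_[l] ℚ_[l] y =
      algebraMap ℤ_[l] ℚ_[l] (a : ℤ_[l]) * u.1 i j := by
    intro i j
    obtain ⟨y, hy⟩ := ha (i, j) (Finset.mem_univ _)
    exact ⟨y, by rw [hy, Algebra.smul_def]⟩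
  choose y hy using h1
  have h2 : (Matrix.of y).map (algebraMap ℤ_[l] ℚ_[l]) =
      (algebraMap ℤ_[l] ℚ_[l] (a : ℤ_[l])) • u.1 := by
    ext i j
    rw [Matrix.map_apply, Matrix.of_apply, hy, Matrix.smul_apply, smul_eq_mul]
  refine ⟨a, ⟨Matrix.of y, fun g => ?_⟩, nonZeroDivisors.ne_zero a.2, ?_⟩
  · apply xlf_injm
    change (Matrix.of y * (r g : Matrix (Fin n) (Fin n) ℤ_[l])).map (algebraMap ℤ_[l] ℚ_[l]) =
      ((r g : Matrix (Fin n) (Fin n) ℤ_[l]) * Matrix.of y).map (algebraMap ℤ_[l] ℚ_[l])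
    rw [Matrix.map_mul, Matrix.map_mul, h2, Matrix.smul_mul, Matrix.mul_smul]
    congr 1
    exact u.2 g
  · apply Subtype.ext
    exact h2.symm

/-- multiples of `l` -/
theorem xlf_div (x : Matrix (Fin n) (Fin n) ℤ_[l]) (h : x.map (PadicInt.toZMod (p := l)) = 0) :
    ∃ y, x = (l : ℤ_[l]) • y := by
  have h1 : ∀ i j, ∃ y : ℤ_[l], x i j = (l : ℤ_[l]) * y := by
    intro i j
    have h2 := congrFun (congrFun h i) j
    rw [Matrix.map_apply, Matrix.zero_apply] at h2
    have h3 : x i j ∈ RingHom.ker (PadicInt.toZMod (p := l)) := h2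
    rw [PadicInt.ker_toZMod, PadicInt.maximalIdeal_eq_span_p, Ideal.mem_span_singleton] at h3
    exact h3
  choose y hy using h1
  refine ⟨Matrix.of y, ?_⟩
  ext i j
  rw [Matrix.smul_apply, Matrix.of_apply, smul_eq_mul, hy]

theorem xlf_surj : Function.Surjective (PadicInt.toZMod (p := l)) :=
  ZMod.ringHom_surjective _

theorem st_XLF : ST_XLF := by
  intro G _ n l _ r hfin u hu
  have hfree : Module.Free ℤ_[l] (xlfLa r) := inferInstance
  have hfg : Module.Finite ℤ_[l] (xlfLa r) := inferInstance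
  let b := Module.finBasis ℤ_[l] (xlfLa r)
  -- the residual images are linearly independent
  have hlin : LinearIndependent (ZMod l) (fun i => xlfR r (b i)) := by
    rw [Fintype.linearIndependent_iff]
    intro c hc
    choose c' hc' using fun i => xlf_surj (l := l) (c i)
    have h1 : ((∑ i, c' i • b i : xlfLa r).1).map (PadicInt.toZMod (p := l)) = 0 := by
      have h2 := congrArg Subtype.val hc
      rw [Submodule.coe_sum] at h2
      ext x y
      have h3 := congrFun (congrFun h2 x) y
      simp only [Matrix.sum_apply, Submodule.coe_smul, Matrix.smul_apply, xlfR, smul_eq_mul,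
        Matrix.map_apply] at h3
      rw [Submodule.coe_sum]
      simp only [Matrix.sum_apply, Submodule.coe_smul, Matrix.smul_apply, smul_eq_mul,
        Matrix.map_apply, map_sum, map_mul, hc', Matrix.zero_apply]
      exact h3
    obtain ⟨y, hy⟩ := xlf_div _ h1
    have hl0 : (l : ℤ_[l]) ≠ 0 := Nat.cast_ne_zero.2 (Fact.out : l.Prime).ne_zero
    have hy' : y ∈ xlfLa r := by
      intro g
      have h2 := (∑ i, c' i • b i : xlfLa r).2 g
      rw [hy, Matrix.smul_mul, Matrix.mul_smul] at h2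
      exact smul_right_injective _ hl0 h2
    have h3 : (∑ i, c' i • b i : xlfLa r) = ∑ i, ((l : ℤ_[l]) * b.repr ⟨y, hy'⟩ i) • b i := by
      have h4 : (∑ i, c' i • b i : xlfLa r) = (l : ℤ_[l]) • ⟨y, hy'⟩ := Subtype.ext hy
      rw [h4]
      conv_lhs => rw [← b.sum_repr ⟨y, hy'⟩]
      rw [Finset.smul_sum]
      apply Finset.sum_congr rfl
      intro i _
      rw [mul_smul]
    intro i
    have h5 : c' i = (l : ℤ_[l]) * b.repr ⟨y, hy'⟩ i := by
      have h6 := congrArg (fun z => b.repr z i) h3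
      simp only [b.repr_sum_self] at h6
      exact h6
    rw [← hc' i, h5, map_mul, map_natCast, ZMod.natCast_self, zero_mul]
  -- the rational images span
  have hspan : ⊤ ≤ Submodule.span ℚ_[l] (Set.range fun i => xlfQ r (b i)) := by
    intro v _
    obtain ⟨a, x, ha, hx⟩ := xlf_den r v
    have ha' : algebraMap ℤ_[l] ℚ_[l] a ≠ 0 := by
      intro h
      exact ha (IsFractionRing.injective ℤ_[l] ℚ_[l] (by rw [h, map_zero]))
    have h1 : v = (algebraMap ℤ_[l] ℚ_[l] a)⁻¹ • xlfQ r x := by
      rw [← hx, smul_smul, inv_mul_cancel₀ ha', one_smul]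
    have h2 : xlfQ r x = ∑ i, (algebraMap ℤ_[l] ℚ_[l] (b.repr x i)) • xlfQ r (b i) := by
      apply Subtype.ext
      ext p q
      rw [Submodule.coe_sum]
      simp only [Matrix.sum_apply, Submodule.coe_smul, Matrix.smul_apply, smul_eq_mul, xlfQ,
        Matrix.map_apply]
      have h3 := congrFun (congrFun (congrArg Subtype.val (b.sum_repr x)) p) q
      rw [Submodule.coe_sum] at h3
      simp only [Matrix.sum_apply, Submodule.coe_smul, Matrix.smul_apply, smul_eq_mul] at h3
      rw [← h3, map_sum]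
      apply Finset.sum_congr rfl
      intro i _
      rw [map_mul]
    rw [h1, h2]
    apply Submodule.smul_mem
    apply Submodule.sum_mem
    intro i _
    exact Submodule.smul_mem _ _ (Submodule.subset_span ⟨i, rfl⟩)
  have hle : Module.finrank ℚ_[l] (Hmk (rat r) (rat r)) ≤
      Module.finrank ℤ_[l] (xlfLa r) := by
    have h1 := finrank_range_le_card (R := ℚ_[l]) (fun i => xlfQ r (b i))
    have h2 : Set.finrank ℚ_[l] (Set.range fun i => xlfQ r (b i)) =
        Module.finrank ℚ_[l] (Hmk (rat r) (rat r)) := by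
      rw [Set.finrank, top_le_iff.1 hspan, finrank_top]
    rw [h2, Fintype.card_fin] at h1
    exact h1
  have hge : Module.finrank ℤ_[l] (xlfLa r) ≤ Module.finrank (ZMod l) (Hmk (res r) (res r)) := by
    have h1 := hlin.fintype_card_le_finrank
    rwa [Fintype.card_fin] at h1
  have heq : Fintype.card (Fin (Module.finrank ℤ_[l] (xlfLa r))) =
      Module.finrank (ZMod l) (Hmk (res r) (res r)) := by
    rw [Fintype.card_fin]
    exact le_antisymm hge (hfin.trans hle)
  have htop := hlin.span_eq_top_of_card_eq_finrank' heq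
  have hmem : (⟨u, hu⟩ : Hmk (res r) (res r)) ∈
      Submodule.span (ZMod l) (Set.range fun i => xlfR r (b i)) := by
    rw [htop]
    trivial
  rw [Submodule.mem_span_range_iff_exists_fun] at hmem
  obtain ⟨c, hc⟩ := hmem
  choose c' hc' using fun i => xlf_surj (l := l) (c i)
  refine ⟨(∑ i, c' i • b i : xlfLa r).1, ?_, (∑ i, c' i • b i : xlfLa r).2⟩
  have h2 := congrArg Subtype.val hc
  rw [Submodule.coe_sum] at h2
  change _ = u at h2
  rw [← h2, Submodule.coe_sum]
  ext x y
  simp only [Matrix.sum_apply, Submodule.coe_smul, Matrix.smul_apply, smul_eq_mul,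
    Matrix.map_apply, map_sum, map_mul, hc', xlfR]

end

end REC
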