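import Pool.Agent.Helper57.REC.StmtsX
import Pool.Agent.Helper48.REC.MXP

/-!
# REC, XSC: Schur's lemma
-/

set_option autoImplicit false

open scoped Classical

namespace REC

open MU

/-- a nonzero homomorphism of irreducible representations is bijective -/
theorem xsc_bij {G K : Type} [Group G] [Field K] {n m : ℕ}
    {r : G →* Matrix (Fin n) (Fin n) K} {s : G →* Matrix (Fin m) (Fin m) K}
    (hr : IsIrr r) (hs : IsIrr s) {u : Matrix (Fin m) (Fin n) K} (hu : ∀ g, u * r g = s g * u)
    (h0 : u ≠ 0) : Function.Bijective u.mulVecLin :=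
  ⟨LinearMap.ker_eq_bot.1 (mxp_inj r s hr u hu h0),
    LinearMap.range_eq_top.1 (mxp_surj r s hs u hu h0)⟩

/-- a nonzero homomorphism of irreducible representations has an inverse -/
theorem xsc_inv {G K : Type} [Group G] [Field K] {n m : ℕ}
    {r : G →* Matrix (Fin n) (Fin n) K} {s : G →* Matrix (Fin m) (Fin m) K}
    (hr : IsIrr r) (hs : IsIrr s) {u : Matrix (Fin m) (Fin n) K} (hu : ∀ g, u * r g = s g * u)
    (h0 : u ≠ 0) : n = m ∧ ∃ C : Matrix (Fin n) (Fin m) K, C * u = 1 ∧ u * C = 1 := by
  let e := LinearEquiv.ofBijective u.mulVecLin (xsc_bij hr hs hu h0)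
  have hnm : n = m := by
    have := LinearEquiv.finrank_eq e
    rwa [Module.finrank_fin_fun, Module.finrank_fin_fun] at this
  refine ⟨hnm, LinearMap.toMatrix' e.symm.toLinearMap, ?_, ?_⟩
  · apply mxp_eq
    intro v
    rw [← Matrix.mulVec_mulVec, Matrix.one_mulVec, LinearMap.toMatrix'_mulVec]
    exact e.symm_apply_apply v
  · apply mxp_eq
    intro v
    rw [← Matrix.mulVec_mulVec, Matrix.one_mulVec, LinearMap.toMatrix'_mulVec]
    exact e.apply_symm_apply v

theorem st_XSC : ST_XSC := by
  intro G K _ _ _ n m r s hr hs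
  constructor
  · by_cases hall : ∀ u ∈ Hmk r s, u = 0
    · have : Hmk r s = ⊥ := (Submodule.eq_bot_iff _).2 hall
      rw [this, finrank_bot]
      exact Nat.zero_le 1
    · push Not at hall
      obtain ⟨u, hu, h0⟩ := hall
      obtain ⟨hnm, C, hC1, hC2⟩ := xsc_inv hr hs hu h0
      refine finrank_le_one (⟨u, hu⟩ : Hmk r s) (fun w => ?_)
      obtain ⟨w, hw⟩ := w
      have hn : 0 < n := by
        rcases Nat.eq_zero_or_pos n with h | h
        · exfalso
          apply h0
          ext i j
          rw [h] at j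
          exact j.elim0
        · exact h
      have : Nonempty (Fin n) := ⟨⟨0, hn⟩⟩
      obtain ⟨c, hc⟩ := Module.End.exists_eigenvalue (C * w).mulVecLin
      obtain ⟨v, hv⟩ := hc.exists_hasEigenvector
      refine ⟨c, ?_⟩
      apply Subtype.ext
      change c • u = w
      by_contra hne
      have h1 : w - c • u ≠ 0 := fun h => hne (sub_eq_zero.1 h).symm
      have h2 : w - c • u ∈ Hmk r s := Submodule.sub_mem _ hw (Submodule.smul_mem _ c hu)
      have h3 := (xsc_bij hr hs h2 h1).1
      apply hv.2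
      apply h3
      rw [map_zero, Matrix.mulVecLin_apply, Matrix.sub_mulVec, Matrix.smul_mulVec]
      have h4 := hv.apply_eq_smul
      rw [Matrix.mulVecLin_apply] at h4
      have h5 : w = u * (C * w) := by rw [← Matrix.mul_assoc, hC2, Matrix.one_mul]
      have h6 : w.mulVec v = c • u.mulVec v := by
        conv_lhs => rw [h5]
        rw [← Matrix.mulVec_mulVec, h4, Matrix.mulVec_smul]
      rw [h6, sub_self]
  · intro u hu h0
    obtain ⟨hnm, C, hC1, hC2⟩ := xsc_inv hr hs hu h0
    refine ⟨hnm, fun g => ?_⟩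
    have h1 : r g = C * (s g * u) := by rw [← hu g, ← Matrix.mul_assoc, hC1, Matrix.one_mul]
    rw [h1, Matrix.trace_mul_comm, Matrix.mul_assoc, hC2, Matrix.mul_one]

end REC
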