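import Pool.Agent.Helper57.REC.StmtsX
import Pool.Agent.Helper85.REC.LIN0

/-!
# REC, XWC: the exact relation gives rational products of eigenvalues
-/

set_option autoImplicit false

open scoped Classical
open NumberField Polynomial

namespace REC

open Pool.Agent.Helper13.ZL (Pl q)
open MU

/-- open normal subgroups of the absolute Galois group (copy of `exists_openNormal`, helper60) -/
theorem xwc_openNormal (F : Type) [Field F] [NumberField F] (U : Set (Gal F)) (hU : IsOpen U)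
    (h1 : (1 : Gal F) ∈ U) : ∃ Y : Subgroup (Gal F), Y.Normal ∧ IsOpen (Y : Set (Gal F)) ∧
      (Y : Set (Gal F)) ⊆ U := by
  obtain ⟨H, hH⟩ := ProfiniteGrp.exist_openNormalSubgroup_sub_open_nhds_of_one hU h1
  exact ⟨H.toSubgroup, H.isNormal', H.isOpen', hH⟩

theorem xwc_coeff {X A : Type} [TopologicalSpace X] [CommRing A] [TopologicalSpace A]
    [IsTopologicalRing A] {n : ℕ} (f : X → Matrix (Fin n) (Fin n) A) (hf : Continuous f) (i : ℕ) :
    Continuous fun x => (f x).charpoly.coeff i := by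
  have h1 : ∀ x, (f x).charpoly.coeff i =
      MvPolynomial.eval (fun ij : Fin n × Fin n => f x ij.1 ij.2)
        ((Matrix.charpoly.univ A (Fin n)).coeff i) := by
    intro x
    have h2 := Matrix.charpoly.univ_coeff_eval₂Hom (n := Fin n) (RingHom.id A)
      (fun ij : Fin n × Fin n => f x ij.1 ij.2) i
    exact h2.symm
  simp_rw [h1]
  refine (MvPolynomial.continuous_eval _).comp ?_
  refine continuous_pi fun ij => ?_
  exact (continuous_apply_apply ij.1 ij.2).comp hf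

theorem xwc_aeval {X A : Type} [TopologicalSpace X] [CommRing A] [TopologicalSpace A]
    [IsTopologicalRing A] (f : X → ℕ → A) (hf : ∀ i, Continuous fun x => f x i)
    (Q : MvPolynomial ℕ ℤ) : Continuous fun x => MvPolynomial.aeval (f x) Q := by
  have h1 : ∀ x, MvPolynomial.aeval (f x) Q =
      MvPolynomial.eval (f x) (MvPolynomial.map (algebraMap ℤ A) Q) := by
    intro x
    rw [MvPolynomial.eval_map, MvPolynomial.aeval_def]
  simp_rw [h1]
  exact (MvPolynomial.continuous_eval _).comp (continuous_pi hf)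

theorem xwc_map {A B : Type} [CommRing A] [CommRing B] (ι : A →+* B) (a : A) (f : A[X])
    (H : MvPolynomial ℕ ℤ) : MvPolynomial.aeval (Cof (ι a) (f.map ι)) H =
      ι (MvPolynomial.aeval (Cof a f) H) := by
  have h1 : Cof (ι a) (f.map ι) = fun i => ι (Cof a f i) := by
    funext i
    cases i with
    | zero => rfl
    | succ i => exact Polynomial.coeff_map ι i
  rw [h1]
  exact (MvPolynomial.comp_aeval_apply (Cof a f) (ι.toIntAlgHom) H).symm

/-- formula for the representation on the summand -/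
theorem xwc_formula {G : Type} [Group G] {n m : ℕ} {L : Type} [Field L] [NumberField L]
    {b : Blo n m L} {l : ℕ} [Fact l.Prime] {Ω : Type} [Field Ω]
    {r : G →* Matrix.GeneralLinearGroup (Fin n) ℤ_[l]} {ϑ : ℤ_[l] →+* Ω} {ι : 𝓞 L →+* Ω}
    {R : G →* Matrix (Fin m) (Fin m) Ω} (h : b.At r ϑ ι R) (g : G) :
    R g = (b.N : Ω)⁻¹ • (b.P.map ι * (r g : Matrix (Fin n) (Fin n) ℤ_[l]).map ϑ * b.Q.map ι) := by
  rw [h.2 g, Matrix.mul_assoc, ← Matrix.map_mul, b.PQ, Matrix.map_smul' _ _ _ (map_mul _),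
    map_natCast, Matrix.map_one _ (map_zero _) (map_one _), Matrix.mul_smul, Matrix.mul_one,
    smul_smul, inv_mul_cancel₀ h.1, one_smul]

/-- integral elements -/
theorem xwc_int {l : ℕ} [Fact l.Prime] {L : Type} [Field L] [NumberField L] (ι : 𝓞 L →+* ℚ_[l])
    (β : 𝓞 L) : ∃ a : ℤ_[l], algebraMap ℤ_[l] ℚ_[l] a = ι β := by
  have hint : IsIntegral ℤ_[l] (ι β) := by
    have h5 : IsIntegral ℤ (ι β) := map_isIntegral_int ι (RingOfIntegers.isIntegral β)
    exact h5.tower_top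
  exact (IsIntegrallyClosed.isIntegral_iff (R := ℤ_[l]) (K := ℚ_[l])).mp hint

theorem st_XWC (hFRB : ST_FRB) (hOVP : ST_OVP) : ST_XWC := by
  intro F L _ _ _ _ _ _ n m b S ρ hcont hCmp H e hRlj
  obtain ⟨S', hrel⟩ := hRlj
  obtain ⟨k, hk, hgen⟩ := lin_gen F
  obtain ⟨-, -, hO3, -, -, -, hO7⟩ := hOVP F
  refine ⟨k, 0, hk, fun l _ _ ι R hAt g => ?_⟩
  -- Frobenius elements
  have key : ∀ (p : ℕ) (𝔓 : Ideal (Zb F)) (k' : ℕ) (σ : Gal F), p.Prime →
      p ∉ insert l (S ∪ S') → Over p 𝔓 → 1 ≤ k' → CongPow 𝔓 (p ^ k') σ →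
      ∃ a : ℤ_[l], MvPolynomial.aeval (Cof (algebraMap ℤ_[l] ℚ_[l] a) ((R σ⁻¹) ^ k).charpoly) H
        = 0 := by
    intro p 𝔓 k' σ hp hpS h𝔓 hk' hσ
    simp only [Finset.mem_insert, Finset.mem_union, not_or] at hpS
    obtain ⟨v, hv⟩ := hO3 p 𝔓 hp h𝔓
    obtain ⟨j, hj⟩ := hO7 v 𝔓 hv p k' σ hp h𝔓 hσ
    have hj0 : 0 < j := by
      rcases Nat.eq_zero_or_pos j with h0 | h0
      · rw [h0, pow_zero] at hj
        have := Nat.one_lt_pow (by omega : k' ≠ 0) hp.one_lt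
        omega
      · exact h0
    obtain ⟨x, hx1, hx2⟩ := hgen v
    have hpv : (p : 𝓞 F) ∈ v.asIdeal := by
      have := (hv.2 (p : 𝓞 F) (p : Zb F) (by simp)).mp h𝔓.2
      exact this
    have hσm : CongPow 𝔓 (p ^ (k' * k)) ((σ ^ k : Gal F)) := by
      rw [pow_mul]
      exact congPow_pow 𝔓 (p ^ k') σ hσ k
    obtain ⟨Φ, hΦ⟩ := hCmp p hp hpS.2.1 𝔓 h𝔓 (k' * k) (σ ^ k) (Nat.mul_pos hk' hk) hσm
    have hσ' : CongPow 𝔓 (q v ^ j) σ := by
      rw [← hj]
      exact hσ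
    have h1 := hrel v p 𝔓 j k σ x Φ hp hpS.2.2 hpv hv hj0 hk hσ' hx1 hx2 hΦ
    obtain ⟨a, ha⟩ := xwc_int ι (∏ τ : F →+* L, RingOfIntegers.mapRingHom τ x ^ (e τ * j))
    refine ⟨a, ?_⟩
    have h2 := hΦ l (fun h => hpS.1 h.symm) ℚ_[l] (algebraMap ℤ_[l] ℚ_[l]) ι R hAt
    rw [← map_pow, inv_pow, h2, ha, xwc_map, h1, map_zero]
  -- continuity
  have hRc : Continuous fun g : Gal F => R g := by
    have h1 : ∀ g, R g = (b.N : ℚ_[l])⁻¹ • (b.P.map ι *
        (ρ l g : Matrix (Fin n) (Fin n) ℤ_[l]).map (algebraMap ℤ_[l] ℚ_[l]) * b.Q.map ι) :=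
      xwc_formula hAt
    simp_rw [h1]
    have h2 : Continuous fun g : Gal F => ((ρ l g : Matrix.GeneralLinearGroup (Fin n) ℤ_[l]) :
        Matrix (Fin n) (Fin n) ℤ_[l]) := Units.continuous_val.comp (hcont l)
    have h3 : Continuous (algebraMap ℤ_[l] ℚ_[l]) := continuous_subtype_val
    have h4 : Continuous fun g : Gal F =>
        ((ρ l g : Matrix.GeneralLinearGroup (Fin n) ℤ_[l]) :
          Matrix (Fin n) (Fin n) ℤ_[l]).map (algebraMap ℤ_[l] ℚ_[l]) := h2.matrix_map h3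
    have h5 : Continuous fun g : Gal F => b.P.map ι *
        ((ρ l g : Matrix.GeneralLinearGroup (Fin n) ℤ_[l]) :
          Matrix (Fin n) (Fin n) ℤ_[l]).map (algebraMap ℤ_[l] ℚ_[l]) * b.Q.map ι :=
      (continuous_const.matrix_mul h4).matrix_mul continuous_const
    exact h5.const_smul ((b.N : ℚ_[l])⁻¹)
  let Z : Set (ℤ_[l] × Gal F) := {x | MvPolynomial.aeval
    (Cof (algebraMap ℤ_[l] ℚ_[l] x.1) ((R x.2) ^ k).charpoly) H = 0}
  have hZ : IsClosed Z := by
    apply isClosed_eq _ continuous_const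
    refine xwc_aeval _ (fun i => ?_) H
    cases i with
    | zero =>
      have h3 : Continuous (algebraMap ℤ_[l] ℚ_[l]) := continuous_subtype_val
      exact h3.comp continuous_fst
    | succ i =>
      exact xwc_coeff (fun x : ℤ_[l] × Gal F => (R x.2) ^ k)
        ((hRc.comp continuous_snd).pow k) i
  have hT : IsClosed (Prod.snd '' Z) := isClosedMap_snd_of_compactSpace _ hZ
  by_contra hne
  have hgT : g ∉ Prod.snd '' Z := by
    rintro ⟨⟨a, g'⟩, h1, h2⟩
    apply hne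
    refine ⟨algebraMap ℤ_[l] ℚ_[l] a, ?_⟩
    change g' = g at h2
    rw [← h2]
    exact h1
  have hVo : IsOpen ((fun σ => g * σ) ⁻¹' (Prod.snd '' Z)ᶜ) :=
    IsOpen.preimage (continuous_const.mul continuous_id) hT.isOpen_compl
  obtain ⟨Y, hYn, hYo, hYV⟩ := xwc_openNormal F _ hVo (by
    rw [Set.mem_preimage, mul_one]
    exact hgT)
  obtain ⟨p, 𝔓, k', φ, hp, hpS, hover, hk', hcong, hφ⟩ :=
    hFRB F Y hYn hYo (insert l (S ∪ S')) g⁻¹
  rw [inv_inv] at hφ
  have h1 : g⁻¹ * φ⁻¹ ∈ Y := by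
    have h2 : φ⁻¹ * g⁻¹ ∈ Y := by
      have := Y.inv_mem hφ
      rwa [mul_inv_rev] at this
    exact (hYn.mem_comm_iff).mp h2
  have h2 := hYV h1
  rw [Set.mem_preimage] at h2
  have h3 : g * (g⁻¹ * φ⁻¹) = φ⁻¹ := by group
  rw [h3] at h2
  obtain ⟨a, ha⟩ := key p 𝔓 k' φ hp hpS hover hk' hcong
  exact h2 ⟨(a, φ⁻¹), ha, rfl⟩

end REC
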